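import Pool.Agent.V11163.GI.Conc
import Pool.Agent.H526R2.GI.Rect

/-!
# The fraction of the isomorphic pairs accepted by a device of small rank
-/

set_option autoImplicit false

open Finset

namespace Pool.Agent.V11163.GI

open Pool.Agent.H526R2.GI

variable {n : ℕ}

theorem few_bad' {t : ℕ} (hn : 2 ≤ n) (ht : 1 ≤ t) (A E : Finset (Pr n))
    (hA : Fintype.card (Pr n) ≤ t * A.card) (hE : Fintype.card (Pr n) ≤ t * E.card) :
    ∃ Bd : Finset (Equiv.Perm (Fin n)), Bd.card * 2 ^ (n / (4096 * t ^ 2)) ≤ 2 * n.factorial ∧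
      ∀ σ, σ ∉ Bd → n ^ 2 / (256 * t ^ 2) ≤ hits A E σ := by
  classical
  have hcard := card_Pr n
  obtain ⟨M, hM⟩ : ∃ M, M = Fintype.card (Pr n) := ⟨_, rfl⟩
  rw [← hM] at hcard hA hE
  obtain ⟨k, hk⟩ : ∃ k, k = n / (256 * t) := ⟨_, rfl⟩
  have hkn : 256 * t * k ≤ n := by rw [hk]; exact Nat.mul_div_le _ _
  have hn1 : n * (n - 1) = n * n - n := by rw [Nat.mul_sub, mul_one]
  have hnn : 2 * n ≤ n * n := Nat.mul_le_mul_right _ hn
  have e1 : 4 * k * n + 32 * n * k ≤ A.card := by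
    refine Nat.le_of_mul_le_mul_left (c := t) (le_trans ?_ hA) (by omega)
    have h1 : 256 * (t * (4 * k * n + 32 * n * k)) = 36 * n * (256 * t * k) := by ring
    have h2 : 36 * n * (256 * t * k) ≤ 36 * n * n := Nat.mul_le_mul_left _ hkn
    have h3 : 36 * n * n = 36 * (n * n) := by ring
    omega
  have e2 : n ^ 2 ≤ 2 * (2 * t * E.card) := by
    have h1 : 2 * (2 * t * E.card) = 4 * (t * E.card) := by ring
    have h2 : n ^ 2 = n * n := pow_two n
    omega
  have e3 : 2 * (k / (16 * t)) ≤ k / (4 * (2 * t)) := by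
    rw [Nat.le_div_iff_mul_le (by omega)]
    have h1 := Nat.div_mul_le_self k (16 * t)
    calc 2 * (k / (16 * t)) * (4 * (2 * t)) = k / (16 * t) * (16 * t) := by ring
      _ ≤ k := h1
  have h := few_bad (n := n) (k := k) (q := 2 * t) (h := k / (16 * t)) (s := 32 * n) (by omega)
    (by omega) (by
      calc 128 * (2 * t) * k = 256 * t * k := by ring
        _ ≤ n := hkn) (by omega) A E e2 e1 e3
  have e4 : k / (16 * t) = n / (4096 * t ^ 2) := by
    rw [hk, Nat.div_div_eq_div_mul]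
    congr 1
    ring
  rw [e4] at h
  refine ⟨_, h, fun σ hσ => ?_⟩
  rw [mem_filter] at hσ
  have h1 : ¬ 2 * hits A E σ < 32 * n * (n / (4096 * t ^ 2) + 1) := fun h => hσ ⟨mem_univ _, h⟩
  have ht2 : 0 < t ^ 2 := by positivity
  have h2 : n < 4096 * t ^ 2 * (n / (4096 * t ^ 2) + 1) := Nat.lt_mul_div_succ _ (by positivity)
  refine Nat.div_le_of_le_mul ?_
  have h3 : 16 * n * (n / (4096 * t ^ 2) + 1) ≤ hits A E σ := by
    have : 32 * n * (n / (4096 * t ^ 2) + 1) = 2 * (16 * n * (n / (4096 * t ^ 2) + 1)) := by ring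
    omega
  calc n ^ 2 = n * n := pow_two n
    _ ≤ n * (4096 * t ^ 2 * (n / (4096 * t ^ 2) + 1)) := Nat.mul_le_mul_left _ h2.le
    _ = 256 * t ^ 2 * (16 * n * (n / (4096 * t ^ 2) + 1)) := by ring
    _ ≤ _ := Nat.mul_le_mul_left _ h3

/-- The pair of the graphs `x` and `σ y`. -/
def two (σ : Equiv.Perm (Fin n)) (x y : Pr n → Bool) : Var n → Bool :=
  Sum.elim x (fun e => y ((act σ).symm e))

theorem act_symm' (σ : Equiv.Perm (Fin n)) (e : Pr n) : (act σ).symm e = act σ⁻¹ e := by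
  rw [Equiv.symm_apply_eq, ← act_mul', mul_inv_cancel]
  apply Subtype.ext
  simp [act]

theorem isIso_two (σ : Equiv.Perm (Fin n)) (x y : Pr n → Bool) :
    IsIso (two σ x y) ↔ IsIso (Sum.elim x y) := by
  rw [isIso_iff, isIso_iff]
  constructor
  · rintro ⟨π, h⟩
    refine ⟨σ⁻¹ * π, fun e => ?_⟩
    have h1 := h e
    simp only [two, Sum.elim_inl, Sum.elim_inr] at h1 ⊢
    rw [← h1, act_mul', act_symm']
  · rintro ⟨π, h⟩
    refine ⟨σ * π, fun e => ?_⟩
    have h1 := h e
    simp only [two, Sum.elim_inl, Sum.elim_inr] at h1 ⊢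
    rw [← h1, act_mul', Equiv.symm_apply_apply]

theorem isIso_self (x : Pr n → Bool) : IsIso (Sum.elim x x : Var n → Bool) := by
  rw [isIso_iff]
  refine ⟨1, fun e => ?_⟩
  simp only [Sum.elim_inl, Sum.elim_inr]
  congr 1
  apply Subtype.ext
  simp [act]

theorem isIso_two_self (σ : Equiv.Perm (Fin n)) (x : Pr n → Bool) : IsIso (two σ x x) :=
  (isIso_two σ x x).2 (isIso_self x)

/-- For each `σ`, a family of pairwise nonisomorphic graphs `x`, such that only the bits in `A` and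
`E` of the pair of `x` and `σ x` depend on `x`, has at most `Q` members with `P`. -/
def Link (P : (Var n → Bool) → Prop) (A E : Finset (Var n)) (Q : ℕ) : Prop :=
  ∀ (σ : Equiv.Perm (Fin n)) (S : Finset (Pr n → Bool)), (∀ x ∈ S, P (two σ x x)) →
    (∀ x ∈ S, ∀ y ∈ S, IsIso (two σ x y) → x = y) →
    (∀ x ∈ S, ∀ x' ∈ S, ∀ y, ∀ v, v ∉ A → two σ x y v = two σ x' y v) →
    (∀ y ∈ S, ∀ y' ∈ S, ∀ x, ∀ v, v ∉ E → two σ x y v = two σ x y' v) → S.card ≤ Q

open Classical in
/-- For one relabelling. -/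
theorem link_one {P : (Var n → Bool) → Prop} {A E : Finset (Var n)} {Q f : ℕ} (h : Link P A E Q)
    (σ : Equiv.Perm (Fin n)) (hf : f ≤ hits (univ.filter (fun e => Sum.inl e ∈ A))
      (univ.filter (fun e => Sum.inr e ∈ E)) σ) :
    (univ.filter (fun x : Pr n → Bool => P (two σ x x))).card * 2 ^ f ≤
      n.factorial * Q * 2 ^ Fintype.card (Pr n) := by
  obtain ⟨F, hF⟩ : ∃ F : Finset (Pr n), F = (univ.filter (fun e => Sum.inl e ∈ A)).filter
    (fun e => act σ e ∈ univ.filter (fun e => Sum.inr e ∈ E)) := ⟨_, rfl⟩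
  have hFc : f ≤ F.card := by
    rw [hF]
    exact hf
  have hFm : ∀ e, e ∈ F ↔ Sum.inl e ∈ A ∧ Sum.inr (act σ e) ∈ E := by
    intro e
    rw [hF, mem_filter, mem_filter, mem_filter]
    simp
  have h1 : (univ.filter (fun x : Pr n → Bool => P (two σ x x))).card ≤
      n.factorial * Q * (univ : Finset ({e // e ∉ F} → Bool)).card := by
    refine card_le_mul_card_image_of_maps_to (f := fun x e => x e.1) (fun x _ => mem_univ _) _ ?_
    intro y _
    obtain ⟨S, hS1, hS2, hS3⟩ := exists_reps ((univ.filter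
      (fun x : Pr n → Bool => P (two σ x x))).filter (fun x => (fun e : {e // e ∉ F} => x e.1) = y))
    refine hS3.trans (Nat.mul_le_mul_left _ ?_)
    have hSe : ∀ x ∈ S, ∀ x' ∈ S, ∀ e, e ∉ F → x e = x' e := by
      intro x hx x' hx' e he
      have g1 := congrFun (mem_filter.1 (hS1 hx)).2 ⟨e, he⟩
      have g2 := congrFun (mem_filter.1 (hS1 hx')).2 ⟨e, he⟩
      exact g1.trans g2.symm
    refine h σ S (fun x hx => (mem_filter.1 (mem_filter.1 (hS1 hx)).1).2)
      (fun x hx y hy hxy => hS2 x hx y hy ((isIso_two σ x y).1 hxy)) ?_ ?_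
    · intro x hx x' hx' y v hv
      cases v with
      | inl e => exact hSe x hx x' hx' e (fun he => hv ((hFm e).1 he).1)
      | inr e => rfl
    · intro y hy y' hy' x v hv
      cases v with
      | inl e => rfl
      | inr e =>
        refine hSe y hy y' hy' _ (fun he => hv ?_)
        have := ((hFm _).1 he).2
        rwa [Equiv.apply_symm_apply] at this
  have h2 : (univ : Finset ({e // e ∉ F} → Bool)).card * 2 ^ F.card =
      2 ^ Fintype.card (Pr n) := by
    rw [card_univ, Fintype.card_fun, Fintype.card_bool, ← pow_add]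
    congr 1
    have h3 := Fintype.card_subtype_compl (fun e => e ∈ F)
    have h4 : F.card ≤ Fintype.card (Pr n) := card_le_univ _
    rw [Fintype.card_coe] at h3
    omega
  calc (univ.filter (fun x : Pr n → Bool => P (two σ x x))).card * 2 ^ f ≤
      (n.factorial * Q * (univ : Finset ({e // e ∉ F} → Bool)).card) * 2 ^ F.card :=
        Nat.mul_le_mul h1 (Nat.pow_le_pow_right (by norm_num) hFc)
    _ = n.factorial * Q * ((univ : Finset ({e // e ∉ F} → Bool)).card * 2 ^ F.card) := by ring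
    _ = _ := by rw [h2]

open Classical in
/-- **The accepted fraction of the isomorphic pairs.** -/
theorem link_all {P : (Var n → Bool) → Prop} {A E : Finset (Var n)} {Q t μ : ℕ} (hn : 2 ≤ n)
    (ht : 1 ≤ t) (hA : A ⊆ univ.image Sum.inl) (hE : E ⊆ univ.image Sum.inr)
    (hAc : Fintype.card (Pr n) ≤ t * A.card) (hEc : Fintype.card (Pr n) ≤ t * E.card)
    (h : Link P A E Q) (hμ : μ + 2 ≤ n / (4096 * t ^ 2))
    (hacc : n.factorial * 2 ^ Fintype.card (Pr n) ≤ 2 ^ μ * (univ.filter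
      (fun y : Equiv.Perm (Fin n) × (Pr n → Bool) => P (two y.1 y.2 y.2))).card) :
    2 ^ (n ^ 2 / (256 * t ^ 2)) ≤ 2 ^ (μ + 1) * (n.factorial * Q) := by
  obtain ⟨A', hA'⟩ : ∃ A' : Finset (Pr n), A' = univ.filter (fun e => Sum.inl e ∈ A) := ⟨_, rfl⟩
  obtain ⟨E', hE'⟩ : ∃ E' : Finset (Pr n), E' = univ.filter (fun e => Sum.inr e ∈ E) := ⟨_, rfl⟩
  have hA'c : A.card ≤ A'.card := by
    have h1 : A ⊆ A'.image Sum.inl := by
      intro v hv
      obtain ⟨e, -, rfl⟩ := mem_image.1 (hA hv)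
      exact mem_image.2 ⟨e, by rw [hA', mem_filter]; exact ⟨mem_univ _, hv⟩, rfl⟩
    exact (card_le_card h1).trans card_image_le
  have hE'c : E.card ≤ E'.card := by
    have h1 : E ⊆ E'.image Sum.inr := by
      intro v hv
      obtain ⟨e, -, rfl⟩ := mem_image.1 (hE hv)
      exact mem_image.2 ⟨e, by rw [hE', mem_filter]; exact ⟨mem_univ _, hv⟩, rfl⟩
    exact (card_le_card h1).trans card_image_le
  obtain ⟨Bd, hBd1, hBd2⟩ := few_bad' hn ht A' E' (hAc.trans (Nat.mul_le_mul_left _ hA'c))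
    (hEc.trans (Nat.mul_le_mul_left _ hE'c))
  obtain ⟨f, hf⟩ : ∃ f, f = n ^ 2 / (256 * t ^ 2) := ⟨_, rfl⟩
  obtain ⟨g, hg⟩ : ∃ g, g = n / (4096 * t ^ 2) := ⟨_, rfl⟩
  obtain ⟨M, hM⟩ : ∃ M, M = Fintype.card (Pr n) := ⟨_, rfl⟩
  rw [← hf] at hBd2 ⊢
  rw [← hg] at hBd1 hμ
  rw [← hM] at hacc
  -- the number of the accepted pairs
  have h1 : (univ.filter (fun y : Equiv.Perm (Fin n) × (Pr n → Bool) =>
      P (two y.1 y.2 y.2))).card = ∑ σ : Equiv.Perm (Fin n),
        (univ.filter (fun x : Pr n → Bool => P (two σ x x))).card := by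
    rw [card_filter, Fintype.sum_prod_type]
    exact sum_congr rfl fun σ _ => (card_filter _ _).symm
  have h2 : (∑ σ : Equiv.Perm (Fin n), (univ.filter (fun x : Pr n → Bool =>
      P (two σ x x))).card) * 2 ^ f ≤ Bd.card * 2 ^ M * 2 ^ f +
        n.factorial * (n.factorial * Q * 2 ^ M) := by
    rw [← sum_filter_add_sum_filter_not univ (fun σ => σ ∈ Bd), add_mul]
    refine Nat.add_le_add (Nat.mul_le_mul_right _ ?_) ?_
    · calc _ ≤ ∑ _σ ∈ univ.filter (fun σ => σ ∈ Bd), 2 ^ M := by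
            refine sum_le_sum fun σ _ => ?_
            refine (card_le_univ _).trans (le_of_eq ?_)
            rw [Fintype.card_fun, Fintype.card_bool, hM]
        _ = _ := by
            rw [sum_const, smul_eq_mul, filter_mem_eq_inter, univ_inter]
    · rw [sum_mul]
      calc _ ≤ ∑ _σ ∈ univ.filter (fun σ => ¬ σ ∈ Bd), n.factorial * Q * 2 ^ M := by
            refine sum_le_sum fun σ hσ => ?_
            rw [hM]
            refine link_one h σ ?_
            have := hBd2 σ (mem_filter.1 hσ).2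
            rw [hA', hE'] at this
            exact this
        _ ≤ ∑ _σ : Equiv.Perm (Fin n), n.factorial * Q * 2 ^ M :=
            sum_le_sum_of_subset (filter_subset _ _)
        _ = _ := by
            rw [sum_const, card_univ, Fintype.card_perm, Fintype.card_fin, smul_eq_mul]
  rw [h1] at hacc
  -- the bad relabellings
  have h3 : 2 * (2 ^ μ * Bd.card) ≤ n.factorial := by
    have h4 : 2 ^ (μ + 2) ≤ 2 ^ g := Nat.pow_le_pow_right (by norm_num) hμ
    have h5 : 4 * (2 ^ μ * Bd.card) ≤ 2 * n.factorial := by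
      calc 4 * (2 ^ μ * Bd.card) = Bd.card * 2 ^ (μ + 2) := by rw [pow_add]; ring
        _ ≤ Bd.card * 2 ^ g := Nat.mul_le_mul_left _ h4
        _ ≤ _ := hBd1
    omega
  have h6 : 2 * (n.factorial * 2 ^ M) * 2 ^ f ≤ n.factorial * 2 ^ M * 2 ^ f +
      2 * (2 ^ μ * (n.factorial * (n.factorial * Q * 2 ^ M))) := by
    calc 2 * (n.factorial * 2 ^ M) * 2 ^ f ≤ 2 * (2 ^ μ * ∑ σ : Equiv.Perm (Fin n),
          (univ.filter (fun x : Pr n → Bool => P (two σ x x))).card) * 2 ^ f := by gcongr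
      _ = 2 * 2 ^ μ * ((∑ σ : Equiv.Perm (Fin n),
          (univ.filter (fun x : Pr n → Bool => P (two σ x x))).card) * 2 ^ f) := by ring
      _ ≤ 2 * 2 ^ μ * (Bd.card * 2 ^ M * 2 ^ f + n.factorial * (n.factorial * Q * 2 ^ M)) :=
          Nat.mul_le_mul_left _ h2
      _ = 2 * (2 ^ μ * Bd.card) * (2 ^ M * 2 ^ f) +
          2 * (2 ^ μ * (n.factorial * (n.factorial * Q * 2 ^ M))) := by ring
      _ ≤ n.factorial * (2 ^ M * 2 ^ f) +
          2 * (2 ^ μ * (n.factorial * (n.factorial * Q * 2 ^ M))) :=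
          Nat.add_le_add_right (Nat.mul_le_mul_right _ h3) _
      _ = _ := by ring
  have h7 : (n.factorial * 2 ^ M) * 2 ^ f ≤
      (n.factorial * 2 ^ M) * (2 ^ (μ + 1) * (n.factorial * Q)) := by
    have e1 : 2 * (n.factorial * 2 ^ M) * 2 ^ f = 2 * ((n.factorial * 2 ^ M) * 2 ^ f) := by ring
    have e2 : (n.factorial * 2 ^ M) * (2 ^ (μ + 1) * (n.factorial * Q)) =
        2 * (2 ^ μ * (n.factorial * (n.factorial * Q * 2 ^ M))) := by
      rw [pow_succ]
      ring
    rw [e1] at h6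
    rw [e2]
    omega
  exact Nat.le_of_mul_le_mul_left h7 (Nat.mul_pos (Nat.factorial_pos n) (by positivity))

end Pool.Agent.V11163.GI
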