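import Pool.Agent.H526R2.GI.Defs

/-!
# Averages over the relabellings of a graph, and pairwise nonisomorphic graphs
-/

set_option autoImplicit false

open Finset

namespace Pool.Agent.V11163.GI

open Pool.Agent.H526R2.GI

variable {n : ℕ}

theorem act_mul' (π σ : Equiv.Perm (Fin n)) (e : Pr n) : act (π * σ) e = act π (act σ e) := by
  apply Subtype.ext
  simp [act, Sym2.map_map]

/-- Every pair of vertices is mapped to every other pair by some permutation. -/
theorem trans_act (f f' : Pr n) : ∃ τ : Equiv.Perm (Fin n), act τ f = f' := by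
  obtain ⟨f, hf⟩ := f
  obtain ⟨f', hf'⟩ := f'
  induction f using Sym2.ind with
  | _ a b =>
  induction f' using Sym2.ind with
  | _ c d =>
  have hab : a ≠ b := by simpa using hf
  have hcd : c ≠ d := by simpa using hf'
  refine ⟨Equiv.swap (Equiv.swap a c b) d * Equiv.swap a c, Subtype.ext ?_⟩
  show (s(a, b)).map _ = s(c, d)
  rw [Sym2.map_mk]
  have h1 : Equiv.swap a c b ≠ c := by
    intro h
    have h2 : Equiv.swap a c b = Equiv.swap a c a := by rw [h, Equiv.swap_apply_left]
    exact hab ((Equiv.swap a c).injective h2).symm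
  simp only [Equiv.Perm.coe_mul, Function.comp_apply, Equiv.swap_apply_left]
  rw [Equiv.swap_apply_of_ne_of_ne h1.symm hcd]

open Classical in
theorem card_act_eq (e f : Pr n) :
    Fintype.card (Pr n) * (univ.filter (fun σ : Equiv.Perm (Fin n) => act σ e = f)).card =
      n.factorial := by
  have h1 : ∀ f' : Pr n, (univ.filter (fun σ : Equiv.Perm (Fin n) => act σ e = f')).card =
      (univ.filter (fun σ : Equiv.Perm (Fin n) => act σ e = f)).card := by
    intro f'
    obtain ⟨τ, hτ⟩ := trans_act f' f
    refine card_bij (fun σ _ => τ * σ) ?_ ?_ ?_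
    · intro σ hσ
      rw [mem_filter] at hσ ⊢
      refine ⟨mem_univ _, ?_⟩
      rw [act_mul', hσ.2, hτ]
    · intro σ _ σ' _ h
      exact mul_left_cancel h
    · intro σ hσ
      rw [mem_filter] at hσ
      refine ⟨τ⁻¹ * σ, ?_, by simp⟩
      rw [mem_filter]
      refine ⟨mem_univ _, ?_⟩
      apply (act τ).injective
      rw [← act_mul', hτ, mul_inv_cancel_left]
      exact hσ.2
  have h2 : ∑ f' : Pr n, (univ.filter (fun σ : Equiv.Perm (Fin n) => act σ e = f')).card =
      n.factorial := by
    rw [← card_eq_sum_card_fiberwise (f := fun σ : Equiv.Perm (Fin n) => act σ e)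
      (s := univ) (t := univ) (fun _ _ => mem_coe.2 (mem_univ _)), card_univ, Fintype.card_perm,
      Fintype.card_fin]
  rw [← h2, sum_congr rfl (fun f' _ => h1 f'), sum_const, card_univ, smul_eq_mul]

open Classical in
/-- The average number of the pairs in `A` which are mapped to `E`. -/
theorem sum_hits (A E : Finset (Pr n)) :
    Fintype.card (Pr n) * ∑ σ : Equiv.Perm (Fin n), (A.filter (fun e => act σ e ∈ E)).card =
      n.factorial * (A.card * E.card) := by
  have h1 : ∀ σ : Equiv.Perm (Fin n), (A.filter (fun e => act σ e ∈ E)).card =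
      ∑ e ∈ A, ∑ f ∈ E, if act σ e = f then 1 else 0 := by
    intro σ
    rw [card_filter]
    refine sum_congr rfl fun e _ => ?_
    rw [sum_ite_eq]
  simp only [h1]
  rw [sum_comm, mul_sum]
  have h2 : ∀ e ∈ A, Fintype.card (Pr n) * ∑ σ : Equiv.Perm (Fin n), ∑ f ∈ E,
      (if act σ e = f then 1 else 0) = n.factorial * E.card := by
    intro e _
    rw [sum_comm, mul_sum]
    have h3 : ∀ f ∈ E, Fintype.card (Pr n) * ∑ σ : Equiv.Perm (Fin n),
        (if act σ e = f then 1 else 0) = n.factorial := by
      intro f _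
      rw [← card_filter]
      exact card_act_eq e f
    rw [sum_congr rfl h3, sum_const, smul_eq_mul, mul_comm]
  rw [sum_congr rfl h2, sum_const, smul_eq_mul]
  ring

open Classical in
theorem exists_hits (A E : Finset (Pr n)) : ∃ σ : Equiv.Perm (Fin n),
    A.card * E.card ≤ Fintype.card (Pr n) * (A.filter (fun e => act σ e ∈ E)).card := by
  by_contra h
  push Not at h
  have h1 := sum_hits A E
  have h2 : ∑ σ : Equiv.Perm (Fin n), Fintype.card (Pr n) *
      (A.filter (fun e => act σ e ∈ E)).card <
      ∑ _σ : Equiv.Perm (Fin n), A.card * E.card :=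
    sum_lt_sum_of_nonempty univ_nonempty fun σ _ => h σ
  rw [← mul_sum, h1, sum_const, card_univ, Fintype.card_perm, Fintype.card_fin,
    smul_eq_mul] at h2
  exact lt_irrefl _ h2

/-- Every set of graphs contains many pairwise nonisomorphic graphs. -/
theorem exists_reps (X : Finset (Pr n → Bool)) : ∃ S ⊆ X,
    (∀ x ∈ S, ∀ y ∈ S, IsIso (Sum.elim x y) → x = y) ∧ X.card ≤ n.factorial * S.card := by
  classical
  -- a maximal set of pairwise nonisomorphic graphs
  obtain ⟨S, hS, hmax⟩ := exists_max_image
    (X.powerset.filter (fun S => ∀ x ∈ S, ∀ y ∈ S, IsIso (Sum.elim x y) → x = y)) card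
    ⟨∅, by simp⟩
  rw [mem_filter, mem_powerset] at hS
  refine ⟨S, hS.1, hS.2, ?_⟩
  have hiso : ∀ x y : Pr n → Bool, IsIso (Sum.elim x y) ↔
      ∃ π : Equiv.Perm (Fin n), ∀ e, y (act π e) = x e := by
    intro x y
    rw [isIso_iff]
    rfl
  have hsymm : ∀ x y : Pr n → Bool, IsIso (Sum.elim x y) → IsIso (Sum.elim y x) := by
    intro x y h
    rw [hiso] at h ⊢
    obtain ⟨π, h⟩ := h
    refine ⟨π⁻¹, fun e => ?_⟩
    rw [← h, ← act_mul', mul_inv_cancel]
    congr 1
    apply Subtype.ext
    simp [act]
  have hcov : X ⊆ S.biUnion (fun y => univ.image (fun π : Equiv.Perm (Fin n) => fun e => y (act π e))) := by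
    intro x hx
    rw [mem_biUnion]
    by_cases hxS : ∃ y ∈ S, IsIso (Sum.elim x y)
    · obtain ⟨y, hy, h⟩ := hxS
      obtain ⟨π, h⟩ := (hiso x y).1 h
      exact ⟨y, hy, mem_image.2 ⟨π, mem_univ _, funext h⟩⟩
    · exfalso
      push Not at hxS
      have hxn : x ∉ S := fun h => hxS x h (by
        rw [hiso]
        exact ⟨1, fun e => by congr 1; apply Subtype.ext; simp [act]⟩)
      have h1 := hmax (insert x S) (by
        rw [mem_filter, mem_powerset]
        refine ⟨insert_subset hx hS.1, ?_⟩
        intro a ha b hb hab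
        rcases mem_insert.1 ha with rfl | ha'
        · rcases mem_insert.1 hb with rfl | hb'
          · rfl
          · exact absurd hab (hxS b hb')
        · rcases mem_insert.1 hb with rfl | hb'
          · exact absurd (hsymm _ _ hab) (hxS a ha')
          · exact hS.2 a ha' b hb' hab)
      rw [card_insert_of_notMem hxn] at h1
      omega
  calc X.card ≤ _ := card_le_card hcov
    _ ≤ ∑ y ∈ S, (univ.image (fun π : Equiv.Perm (Fin n) => fun e => y (act π e))).card :=
      card_biUnion_le
    _ ≤ ∑ _y ∈ S, n.factorial := by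
      refine sum_le_sum fun y _ => card_image_le.trans ?_
      rw [card_univ, Fintype.card_perm, Fintype.card_fin]
    _ = n.factorial * S.card := by rw [sum_const, smul_eq_mul, mul_comm]

end Pool.Agent.V11163.GI
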