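import Pool.Agent.V11163.GI.Avg
import Pool.Agent.H526R2.GI.Degree
import Pool.Agent.W896.FD.Tail

/-!
# A random relabelling maps many pairs of a dense set to another dense set
-/

set_option autoImplicit false

open Finset

namespace Pool.Agent.V11163.GI

open Pool.Agent.H526R2.GI

variable {n : ℕ}

/-- The pair `u v` belongs to `A`. -/
def InP (A : Finset (Pr n)) (u v : Fin n) : Prop :=
  ∃ h : ¬ (s(u, v)).IsDiag, (⟨s(u, v), h⟩ : Pr n) ∈ A

/-- There is an edge outside of a small set of vertices. -/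
theorem exists_edge (A : Finset (Pr n)) (U : Finset (Fin n)) (h : U.card * n < A.card) :
    ∃ u v, u ∉ U ∧ v ∉ U ∧ u ≠ v ∧ InP A u v := by
  classical
  have h1 : (U.biUnion fun i => A.filter (fun e => i ∈ e.1)).card ≤ U.card * n := by
    refine card_biUnion_le_card_mul _ _ n fun i _ => ?_
    have h2 : deg A i ≤ deg univ i := card_le_card (filter_subset_filter _ (subset_univ _))
    rw [deg_univ] at h2
    have h3 : (A.filter (fun e => i ∈ e.1)).card = deg A i := rfl
    omega
  obtain ⟨e, he, he'⟩ := exists_mem_notMem_of_card_lt_card (h1.trans_lt h)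
  obtain ⟨e, hd⟩ := e
  induction e using Sym2.ind with
  | _ u v =>
  refine ⟨u, v, fun hu => he' ?_, fun hv => he' ?_, fun huv => hd (by simp [huv]), hd, he⟩
  · exact mem_biUnion.2 ⟨u, hu, mem_filter.2 ⟨he, by simp⟩⟩
  · exact mem_biUnion.2 ⟨v, hv, mem_filter.2 ⟨he, by simp⟩⟩

/-- A matching in `A`, in blocks of four vertices. -/
theorem exists_blocks (hn : 0 < n) (A : Finset (Pr n)) (k : ℕ) (h : 4 * k * n ≤ A.card) :
    ∃ c : Fin k × Fin 4 ↪ Fin n, ∀ i, InP A (c (i, 0)) (c (i, 1)) := by
  classical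
  induction k with
  | zero => exact ⟨⟨fun x => x.1.elim0, fun x => x.1.elim0⟩, fun i => i.elim0⟩
  | succ k ih =>
    obtain ⟨c, hc⟩ := ih (le_trans (Nat.mul_le_mul_right _ (by omega)) h)
    obtain ⟨U, hU⟩ : ∃ U : Finset (Fin n), U = univ.image c := ⟨_, rfl⟩
    have hUc : U.card ≤ 4 * k := by
      rw [hU]
      refine card_image_le.trans ?_
      rw [card_univ, Fintype.card_prod, Fintype.card_fin, Fintype.card_fin]
      omega
    have hb : ∀ m, m ≤ 4 * k + 2 → m * n < A.card := by
      intro m hm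
      refine lt_of_lt_of_le ?_ h
      refine Nat.mul_lt_mul_of_pos_right ?_ hn
      omega
    obtain ⟨u, v, hu, hv, huv, huvA⟩ := exists_edge A U (hb _ (by omega))
    obtain ⟨u', v', hu', hv', huv', -⟩ := exists_edge A (insert u (insert v U)) (hb _ (by
      have h1 := card_insert_le u (insert v U)
      have h2 := card_insert_le v U
      omega))
    rw [mem_insert, mem_insert, not_or, not_or] at hu' hv'
    have hcU : ∀ x, c x ∈ U := fun x => by rw [hU]; exact mem_image_of_mem _ (mem_univ _)
    obtain ⟨w, hw⟩ : ∃ w : Fin 4 → Fin n, w = ![u, v, u', v'] := ⟨_, rfl⟩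
    have hwU : ∀ j, w j ∉ U := by
      intro j
      rw [hw]
      fin_cases j
      · exact hu
      · exact hv
      · exact hu'.2.2
      · exact hv'.2.2
    have hwi : Function.Injective w := by
      intro i j hij
      rw [hw] at hij
      fin_cases i <;> fin_cases j <;> first
        | rfl
        | (exfalso; simp at hij; simp_all)
    refine ⟨⟨fun x => if hx : x.1.1 < k then c (⟨x.1.1, hx⟩, x.2) else w x.2, ?_⟩, ?_⟩
    · rintro ⟨i, j⟩ ⟨i', j'⟩ h
      simp only at h
      by_cases hi : i.1 < k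
      · by_cases hi' : i'.1 < k
        · rw [dif_pos hi, dif_pos hi'] at h
          have h1 := c.injective h
          rw [Prod.mk.injEq, Fin.mk.injEq] at h1
          exact Prod.ext (Fin.ext h1.1) h1.2
        · rw [dif_pos hi, dif_neg hi'] at h
          exact absurd (h ▸ hcU _) (hwU _)
      · by_cases hi' : i'.1 < k
        · rw [dif_neg hi, dif_pos hi'] at h
          exact absurd (h ▸ hcU _) (hwU _)
        · rw [dif_neg hi, dif_neg hi'] at h
          refine Prod.ext (Fin.ext ?_) (hwi h)
          have := i.2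
          have := i'.2
          simp only
          omega
    · intro i
      show InP A (if hx : i.1 < k then c (⟨i.1, hx⟩, 0) else w 0)
        (if hx : i.1 < k then c (⟨i.1, hx⟩, 1) else w 1)
      by_cases hi : i.1 < k
      · rw [dif_pos hi, dif_pos hi]
        exact hc _
      · rw [dif_neg hi, dif_neg hi, hw]
        exact huvA

/-- The first pair of a block. -/
noncomputable def bp {k : ℕ} (c : Fin k × Fin 4 ↪ Fin n) (i : Fin k) : Pr n :=
  ⟨s(c (i, 0), c (i, 1)), fun h => by
    have h1 := c.injective (Sym2.mk_isDiag_iff.1 h)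
    rw [Prod.mk.injEq] at h1
    exact absurd h1.2 (by decide)⟩

theorem inP_bp {A : Finset (Pr n)} {k : ℕ} {c : Fin k × Fin 4 ↪ Fin n} {i : Fin k}
    (h : InP A (c (i, 0)) (c (i, 1))) : bp c i ∈ A :=
  h.2

theorem bp_inj {k : ℕ} (c : Fin k × Fin 4 ↪ Fin n) : Function.Injective (bp c) := by
  intro i j h
  have h1 : s(c (i, 0), c (i, 1)) = s(c (j, 0), c (j, 1)) := congrArg Subtype.val h
  rw [Sym2.eq_iff] at h1
  rcases h1 with ⟨h1, -⟩ | ⟨h1, -⟩
  · have := c.injective h1
    rw [Prod.mk.injEq] at this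
    exact this.1
  · have := c.injective h1
    rw [Prod.mk.injEq] at this
    exact absurd this.2 (by decide)

/-- Disjoint matchings. -/
theorem exists_matchings (hn : 0 < n) (k : ℕ) : ∀ (s : ℕ) (A : Finset (Pr n)),
    4 * k * n + s * k ≤ A.card → ∃ c : Fin s → (Fin k × Fin 4 ↪ Fin n),
      (∀ j i, bp (c j) i ∈ A) ∧ ∀ j i j' i', bp (c j) i = bp (c j') i' → j = j' := by
  classical
  intro s
  induction s with
  | zero => exact fun A _ => ⟨fun j => j.elim0, fun j => j.elim0, fun j => j.elim0⟩
  | succ s ih =>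
    intro A hA
    have h0 : (s + 1) * k = s * k + k := by ring
    rw [h0] at hA
    obtain ⟨c₀, hc₀⟩ := exists_blocks hn A k (by omega)
    obtain ⟨c, hc, hd⟩ := ih (A \ univ.image (bp c₀)) (by
      have h1 := le_card_sdiff (univ.image (bp c₀)) A
      have h2 : (univ.image (bp c₀)).card ≤ k :=
        card_image_le.trans (by rw [card_univ, Fintype.card_fin])
      omega)
    have hne : ∀ j i i', bp (c j) i ≠ bp c₀ i' := by
      intro j i i' h
      refine (mem_sdiff.1 (hc j i)).2 ?_
      rw [h]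
      exact mem_image_of_mem _ (mem_univ _)
    refine ⟨Fin.cons c₀ c, ?_, ?_⟩
    · intro j
      refine Fin.cases ?_ (fun j => ?_) j
      · intro i
        rw [Fin.cons_zero]
        exact inP_bp (hc₀ i)
      · intro i
        rw [Fin.cons_succ]
        exact (mem_sdiff.1 (hc j i)).1
    · intro j i j' i'
      refine Fin.cases (Fin.cases ?_ (fun j' => ?_) j') (fun j => Fin.cases ?_ (fun j' => ?_) j') j
      · intro _
        rfl
      · intro h
        rw [Fin.cons_zero, Fin.cons_succ] at h
        exact absurd h.symm (hne _ _ _)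
      · intro h
        rw [Fin.cons_zero, Fin.cons_succ] at h
        exact absurd h (hne _ _ _)
      · intro h
        rw [Fin.cons_succ, Fin.cons_succ] at h
        rw [hd _ _ _ _ h]

open Classical in
/-- The number of the pairs in `A` which are mapped to `E`. -/
noncomputable def hits (A E : Finset (Pr n)) (σ : Equiv.Perm (Fin n)) : ℕ :=
  (A.filter (fun e => act σ e ∈ E)).card

open Classical in
/-- For one matching. -/
theorem one_matching {k q h : ℕ} (hn : 0 < n) (hq : 1 ≤ q) (hk : 128 * q * k ≤ n)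
    (E : Finset (Pr n)) (hE : n ^ 2 ≤ 2 * (q * E.card)) (hh : 2 * h ≤ k / (4 * q))
    (c : Fin k × Fin 4 ↪ Fin n) :
    (univ.filter (fun σ : Equiv.Perm (Fin n) =>
      (univ.filter (fun i => act σ (bp c i) ∈ E)).card ≤ h)).card * 2 ^ h ≤ n.factorial := by
  obtain ⟨F, hF⟩ : ∃ F : Finset (Fin 4 → Fin n), F = univ.filter (fun τ => InP E (τ 0) (τ 1)) :=
    ⟨_, rfl⟩
  have hFc : n ^ 4 ≤ q * F.card := by
    have h1 : ((univ : Finset (E × Bool × Fin n × Fin n)).card) ≤ F.card := by
      refine card_le_card_of_injOn (fun p => ![if p.2.1 then p.1.1.1.out.1 else p.1.1.1.out.2,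
        if p.2.1 then p.1.1.1.out.2 else p.1.1.1.out.1, p.2.2.1, p.2.2.2]) ?_ ?_
      · rintro ⟨⟨e, he⟩, b, x, y⟩ -
        rw [hF, mem_coe, mem_filter]
        refine ⟨mem_univ _, ?_⟩
        simp only [Matrix.cons_val_zero, Matrix.cons_val_one]
        have e1 : s(e.1.out.1, e.1.out.2) = e.1 := Quot.out_eq _
        have e2 : s(e.1.out.2, e.1.out.1) = e.1 := by rw [Sym2.eq_swap, e1]
        cases b
        · refine ⟨by simp only [Bool.false_eq_true, if_false]; rw [e2]; exact e.2, ?_⟩
          convert he using 1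
          exact Subtype.ext (by simpa using e2)
        · refine ⟨by simp only [if_true]; rw [e1]; exact e.2, ?_⟩
          convert he using 1
          exact Subtype.ext (by simpa using e1)
      · rintro ⟨⟨e, he⟩, b, x, y⟩ - ⟨⟨e', he'⟩, b', x', y'⟩ - h
        have h0 := congrFun h 0
        have h1 := congrFun h 1
        have h2 := congrFun h 2
        have h3 := congrFun h 3
        simp only [Matrix.cons_val] at h0 h1 h2 h3
        have e1 : s(e.1.out.1, e.1.out.2) = e.1 := Quot.out_eq _
        have e2 : s(e'.1.out.1, e'.1.out.2) = e'.1 := Quot.out_eq _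
        have hne : e.1.out.1 ≠ e.1.out.2 := by
          intro h'
          apply e.2
          rw [← e1, h']
          exact Sym2.mk_isDiag_iff.2 rfl
        have hee : e = e' := by
          apply Subtype.ext
          rw [← e1, ← e2]
          cases b <;> cases b' <;> simp only [Bool.false_eq_true, if_false, if_true] at h0 h1
          · rw [h0, h1]
          · rw [h0, h1]; exact Sym2.eq_swap
          · rw [h0, h1]; exact Sym2.eq_swap
          · rw [h0, h1]
        subst hee
        have hbb : b = b' := by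
          cases b <;> cases b' <;> simp only [Bool.false_eq_true, if_false, if_true] at h0 h1
          · rfl
          · exact absurd h0.symm hne
          · exact absurd h0 hne
          · rfl
        rw [hbb, h2, h3]
    rw [card_univ, Fintype.card_prod, Fintype.card_prod, Fintype.card_prod, Fintype.card_coe,
      Fintype.card_bool, Fintype.card_fin] at h1
    calc n ^ 4 = n ^ 2 * (n * n) := by ring
      _ ≤ 2 * (q * E.card) * (n * n) := Nat.mul_le_mul_right _ hE
      _ = q * (E.card * (2 * (n * n))) := by ring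
      _ ≤ q * F.card := Nat.mul_le_mul_left _ h1
  have h1 := Pool.Agent.W896.FD.moment hq hk hn c F hFc
  obtain ⟨Bd, hBd⟩ : ∃ Bd, Bd = univ.filter (fun σ : Equiv.Perm (Fin n) =>
      (univ.filter (fun i => act σ (bp c i) ∈ E)).card ≤ h) := ⟨_, rfl⟩
  rw [← hBd]
  have h2 : (Bd.card : ℝ) * (1 / 2) ^ h ≤ (n.factorial : ℝ) * (1 / 2) ^ (k / (4 * q)) := by
    refine le_trans ?_ h1
    rw [← nsmul_eq_mul, ← sum_const]
    refine le_trans (sum_le_sum (g := fun ρ : Equiv.Perm (Fin n) => ∏ i : Fin k,
      (if (fun j => ρ (c (i, j))) ∈ F then (1 / 2 : ℝ) else 1)) ?_)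
      (sum_le_sum_of_subset_of_nonneg (subset_univ Bd) (fun ρ _ _ => prod_nonneg (fun i _ => by
        split_ifs <;> norm_num)))
    intro ρ hρ
    rw [hBd, mem_filter] at hρ
    rw [prod_ite, prod_const, prod_const_one, mul_one]
    refine pow_le_pow_of_le_one (by norm_num) (by norm_num) (le_trans ?_ hρ.2)
    refine card_le_card fun i hi => ?_
    rw [mem_filter] at hi ⊢
    refine ⟨mem_univ _, ?_⟩
    have h3 := hi.2
    rw [hF, mem_filter] at h3
    exact h3.2.2
  have h3 : (Bd.card : ℝ) * 2 ^ h ≤ n.factorial := by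
    have h4 : ((1 : ℝ) / 2) ^ (k / (4 * q)) ≤ (1 / 2) ^ (2 * h) :=
      pow_le_pow_of_le_one (by norm_num) (by norm_num) hh
    have h5 : (Bd.card : ℝ) * (1 / 2) ^ h ≤ n.factorial * (1 / 2) ^ (2 * h) :=
      h2.trans (mul_le_mul_of_nonneg_left h4 (by positivity))
    have h6 : ((1 : ℝ) / 2) ^ h * 2 ^ h = 1 := by rw [← mul_pow]; norm_num
    calc (Bd.card : ℝ) * 2 ^ h = (Bd.card * (1 / 2) ^ h) * (2 ^ h * 2 ^ h) := by
          calc (Bd.card : ℝ) * 2 ^ h = Bd.card * ((1 / 2) ^ h * 2 ^ h) * 2 ^ h := by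
                rw [h6]; ring
            _ = _ := by ring
      _ ≤ (n.factorial * (1 / 2) ^ (2 * h)) * (2 ^ h * 2 ^ h) :=
          mul_le_mul_of_nonneg_right h5 (by positivity)
      _ = n.factorial * (((1 / 2) ^ h * 2 ^ h) * ((1 / 2) ^ h * 2 ^ h)) := by
          rw [two_mul, pow_add]
          ring
      _ = n.factorial := by rw [h6]; ring
  exact_mod_cast h3

open Classical in
/-- All but few relabellings map many pairs of `A` to `E`. -/
theorem few_bad {k q h s : ℕ} (hn : 0 < n) (hq : 1 ≤ q) (hk : 128 * q * k ≤ n)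
    (hs : 0 < s) (A E : Finset (Pr n)) (hE : n ^ 2 ≤ 2 * (q * E.card))
    (hA : 4 * k * n + s * k ≤ A.card) (hh : 2 * h ≤ k / (4 * q)) :
    (univ.filter (fun σ : Equiv.Perm (Fin n) => 2 * hits A E σ < s * (h + 1))).card * 2 ^ h ≤
      2 * n.factorial := by
  obtain ⟨c, hc, hd⟩ := exists_matchings hn k s A hA
  obtain ⟨g, hg⟩ : ∃ g : Fin s → Equiv.Perm (Fin n) → ℕ, ∀ j σ, g j σ =
    (univ.filter (fun i => act σ (bp (c j) i) ∈ E)).card := ⟨_, fun _ _ => rfl⟩
  have hsum : ∀ σ, ∑ j, g j σ ≤ hits A E σ := by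
    intro σ
    simp only [hg]
    rw [← card_sigma]
    unfold hits
    refine card_le_card_of_injOn (fun x => bp (c x.1) x.2) ?_ ?_
    · rintro ⟨j, i⟩ hx
      rw [mem_coe, mem_sigma, mem_filter] at hx
      rw [mem_coe, mem_filter]
      exact ⟨hc j i, hx.2.2⟩
    · rintro ⟨j, i⟩ - ⟨j', i'⟩ - h'
      have h1 : j = j' := hd _ _ _ _ h'
      subst h1
      have h2 : i = i' := bp_inj (c j) h'
      rw [h2]
  obtain ⟨Bd, hBd⟩ : ∃ Bd, Bd = univ.filter (fun σ : Equiv.Perm (Fin n) =>
      2 * hits A E σ < s * (h + 1)) := ⟨_, rfl⟩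
  rw [← hBd]
  -- at least half of the matchings fail
  have h1 : ∀ σ ∈ Bd, s ≤ 2 * (univ.filter (fun j => g j σ ≤ h)).card := by
    intro σ hσ
    rw [hBd, mem_filter] at hσ
    have h2 := hσ.2
    have h3 := hsum σ
    have h4 : (univ.filter (fun j => ¬ g j σ ≤ h)).card * (h + 1) ≤ ∑ j, g j σ := by
      rw [← smul_eq_mul, ← sum_const]
      refine (sum_le_sum (g := fun j => g j σ) ?_).trans
        (sum_le_sum_of_subset (filter_subset _ univ))
      intro j hj
      have := (mem_filter.1 hj).2
      omega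
    have h5 := card_filter_add_card_filter_not (s := (univ : Finset (Fin s)))
      (fun j => g j σ ≤ h)
    rw [card_univ, Fintype.card_fin] at h5
    have h6 : 2 * (univ.filter (fun j => ¬ g j σ ≤ h)).card < s := by
      refine Nat.lt_of_mul_lt_mul_right (a := h + 1) ?_
      calc 2 * (univ.filter (fun j => ¬ g j σ ≤ h)).card * (h + 1) =
          2 * ((univ.filter (fun j => ¬ g j σ ≤ h)).card * (h + 1)) := by ring
        _ ≤ 2 * hits A E σ := Nat.mul_le_mul_left _ (h4.trans h3)
        _ < _ := h2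
    omega
  have h2 : Bd.card * s ≤ 2 * ∑ j : Fin s, (univ.filter (fun σ => g j σ ≤ h)).card := by
    calc Bd.card * s = ∑ _σ ∈ Bd, s := by rw [sum_const, smul_eq_mul]
      _ ≤ ∑ σ ∈ Bd, 2 * (univ.filter (fun j => g j σ ≤ h)).card := sum_le_sum h1
      _ ≤ ∑ σ, 2 * (univ.filter (fun j => g j σ ≤ h)).card :=
          sum_le_sum_of_subset (subset_univ _)
      _ = _ := by
          rw [← mul_sum]
          simp only [card_filter]
          rw [sum_comm]
  have h3 : ∀ j : Fin s, (univ.filter (fun σ => g j σ ≤ h)).card * 2 ^ h ≤ n.factorial := by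
    intro j
    simp only [hg]
    exact one_matching hn hq hk E hE hh (c j)
  have h4 : (Bd.card * 2 ^ h) * s ≤ (2 * n.factorial) * s := by
    calc (Bd.card * 2 ^ h) * s = (Bd.card * s) * 2 ^ h := by ring
      _ ≤ (2 * ∑ j : Fin s, (univ.filter (fun σ => g j σ ≤ h)).card) * 2 ^ h :=
          Nat.mul_le_mul_right _ h2
      _ = 2 * ∑ j : Fin s, (univ.filter (fun σ => g j σ ≤ h)).card * 2 ^ h := by
          rw [mul_assoc, sum_mul]
      _ ≤ 2 * ∑ _j : Fin s, n.factorial :=
          Nat.mul_le_mul_left _ (sum_le_sum fun j _ => h3 j)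
      _ = _ := by
          rw [sum_const, card_univ, Fintype.card_fin, smul_eq_mul]
          ring
  exact Nat.le_of_mul_le_mul_right h4 hs

end Pool.Agent.V11163.GI
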