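import Pool.Agent.TH700.TN.Defs

/-!
# Cutting a tree tensor network into pieces with few variables
-/

set_option autoImplicit false

open Finset

namespace Pool.Agent.V11163.GI

open Pool.Agent.TH700.TN

variable {K V W : Type}

/-- Among the variables in `D`, the function `g` depends only on those in `S`. -/
def Dep {β : Type} (D : Set V) (S : Finset V) (g : (V → Bool) → β) : Prop :=
  ∀ x x' : V → Bool, (∀ v, x v ≠ x' v → v ∈ D ∧ v ∉ S) → g x = g x'

theorem Dep.mono {β : Type} {D : Set V} {S S' : Finset V} {g : (V → Bool) → β} (h : Dep D S g)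
    (hS : S ⊆ S') : Dep D S' g :=
  fun x x' hx => h x x' fun v hv => ⟨(hx v hv).1, fun h' => (hx v hv).2 (hS h')⟩

/-- The vector `E x` is a sum of products over a small index set, where the factor of the piece `j`
depends on the variables in `S j`, and another factor depends on those in `S₀`. -/
def Dc [CommSemiring K] [Fintype W] (D : Set V) (E : (V → Bool) → W → K) (J : Type) [Fintype J]
    (S : J → Finset V) (S₀ : Finset V) : Prop :=
  ∃ (U : Type) (_ : Fintype U) (F₀ : (V → Bool) → U → W → K) (F : J → (V → Bool) → U → K),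
    Fintype.card U ≤ Fintype.card W ^ Fintype.card J ∧ Dep D S₀ F₀ ∧ (∀ j, Dep D (S j) (F j)) ∧
    ∀ x k, E x k = ∑ u, F₀ x u k * ∏ j, F j x u

section

variable [CommSemiring K] [Fintype W] {D : Set V}

theorem dc_leaf (v : V) (f : Bool → W → K) (S₀ : Finset V) (h : v ∈ D → v ∈ S₀) :
    Dc D (Net.leaf v f).eval Empty (fun j => j.elim) S₀ := by
  refine ⟨Unit, inferInstance, fun x _ k => f (x v) k, fun j => j.elim, by simp, ?_,
    fun j => j.elim, ?_⟩
  · intro x x' hx
    have h1 : x v = x' v := by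
      by_contra hne
      exact (hx v hne).2 (h (hx v hne).1)
    funext _ k
    show f (x v) k = f (x' v) k
    rw [h1]
  · intro x k
    simp [Net.eval]

omit [Fintype W] in
theorem sums {I U₁ U₂ : Type} [Fintype I] [Fintype U₁] [Fintype U₂] (c : I → I → K)
    (P : U₁ → I → K) (Q : U₂ → I → K) :
    ∑ i, ∑ j, c i j * ((∑ u, P u i) * ∑ v, Q v j) =
      ∑ u, ∑ v, ∑ i, ∑ j, c i j * (P u i * Q v j) := by
  symm
  calc ∑ u, ∑ v, ∑ i, ∑ j, c i j * (P u i * Q v j) =
      ∑ u, ∑ i, ∑ v, ∑ j, c i j * (P u i * Q v j) := sum_congr rfl fun u _ => sum_comm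
    _ = ∑ i, ∑ u, ∑ v, ∑ j, c i j * (P u i * Q v j) := sum_comm
    _ = ∑ i, ∑ u, ∑ j, ∑ v, c i j * (P u i * Q v j) :=
        sum_congr rfl fun i _ => sum_congr rfl fun u _ => sum_comm
    _ = ∑ i, ∑ j, ∑ u, ∑ v, c i j * (P u i * Q v j) := sum_congr rfl fun i _ => sum_comm
    _ = _ := by
        refine sum_congr rfl fun i _ => sum_congr rfl fun j _ => ?_
        rw [Finset.sum_mul_sum, Finset.mul_sum]
        exact sum_congr rfl fun u _ => (Finset.mul_sum _ _ _).symm

theorem dc_node [DecidableEq V] {l r : Net K V W} (c : W → W → W → K) {J₁ J₂ : Type} [Fintype J₁]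
    [Fintype J₂] {S₁ : J₁ → Finset V} {S₂ : J₂ → Finset V} {A₁ A₂ : Finset V}
    (h1 : Dc D l.eval J₁ S₁ A₁) (h2 : Dc D r.eval J₂ S₂ A₂) :
    Dc D (Net.node l r c).eval (J₁ ⊕ J₂) (Sum.elim S₁ S₂) (A₁ ∪ A₂) := by
  obtain ⟨U₁, i₁, F₁, G₁, a1, a2, a3, a4⟩ := h1
  obtain ⟨U₂, i₂, F₂, G₂, b1, b2, b3, b4⟩ := h2
  refine ⟨U₁ × U₂, inferInstance, fun x u k => ∑ i, ∑ j, c i j k * (F₁ x u.1 i * F₂ x u.2 j),
    fun j x u => Sum.elim (fun j => G₁ j x u.1) (fun j => G₂ j x u.2) j, ?_, ?_, ?_, ?_⟩
  · rw [Fintype.card_prod, Fintype.card_sum, pow_add]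
    exact Nat.mul_le_mul a1 b1
  · intro x x' hx
    have e1 := a2.mono subset_union_left x x' hx
    have e2 := b2.mono subset_union_right x x' hx
    funext u k
    simp only [e1, e2]
  · rintro (j | j)
    · intro x x' hx
      funext u
      exact congrFun (a3 j x x' hx) u.1
    · intro x x' hx
      funext u
      exact congrFun (b3 j x x' hx) u.2
  · intro x k
    simp only [Net.eval, a4, b4]
    rw [Fintype.sum_prod_type]
    have e3 : ∀ (u : U₁) (v : U₂), (∑ i, ∑ j, c i j k * (F₁ x u i * F₂ x v j)) *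
        ∏ j, Sum.elim (fun j => G₁ j x u) (fun j => G₂ j x v) j =
        ∑ i, ∑ j, c i j k * ((F₁ x u i * ∏ j, G₁ j x u) * (F₂ x v j * ∏ j, G₂ j x v)) := by
      intro u v
      rw [Fintype.prod_sum_type]
      simp only [Sum.elim_inl, Sum.elim_inr, Finset.sum_mul]
      refine sum_congr rfl fun i _ => sum_congr rfl fun j _ => ?_
      ring
    simp only [e3]
    exact sums (fun i j => c i j k) (fun u i => F₁ x u i * ∏ j, G₁ j x u)
      (fun u i => F₂ x u i * ∏ j, G₂ j x u)

theorem dc_close [DecidableEq W] {E : (V → Bool) → W → K} {J : Type} [Fintype J]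
    {S : J → Finset V} {A : Finset V} (h : Dc D E J S A) :
    Dc D E (Option J) (fun j => j.elim A S) ∅ := by
  obtain ⟨U, i, F₀, F, a1, a2, a3, a4⟩ := h
  refine ⟨U × W, inferInstance, fun _ u k => if u.2 = k then 1 else 0,
    fun j x u => j.elim (F₀ x u.1 u.2) (fun j => F j x u.1), ?_, fun _ _ _ => rfl, ?_, ?_⟩
  · rw [Fintype.card_prod, Fintype.card_option, pow_succ]
    exact Nat.mul_le_mul_right _ a1
  · intro j
    cases j with
    | none =>
      intro x x' hx
      funext u
      exact congrFun (congrFun (a2 x x' hx) u.1) u.2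
    | some j =>
      intro x x' hx
      funext u
      exact congrFun (a3 j x x' hx) u.1
  · intro x k
    rw [a4, Fintype.sum_prod_type]
    refine sum_congr rfl fun u _ => ?_
    simp only [Fintype.prod_option, Option.elim_none, Option.elim_some, ite_mul, one_mul, zero_mul]
    rw [sum_ite_eq']
    simp

end

open Classical in
/-- **The pieces.** Let `h ≥ 1`. The network can be cut into pieces with at most `2 h` variables of
`D`, such that all but one piece have more than `h`, and no variable is in more pieces than leaves. -/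
theorem exists_dec [CommSemiring K] [Fintype W] (D : Finset V) {h : ℕ} (hh : 1 ≤ h)
    (T : Net K V W) : ∃ (J : Type) (_ : Fintype J) (S : J → Finset V) (S₀ : Finset V),
      Dc (D : Set V) T.eval J S S₀ ∧ S₀.card ≤ h ∧ (∀ j, h < (S j).card ∧ (S j).card ≤ 2 * h) ∧
      (∀ j, S j ⊆ D) ∧ S₀ ⊆ D ∧
      ∀ v, (univ.filter (fun j => v ∈ S j)).card + (if v ∈ S₀ then 1 else 0) ≤ T.reads v := by
  induction T with
  | leaf v f =>
    by_cases hv : v ∈ D
    · refine ⟨Empty, inferInstance, fun j => j.elim, {v}, dc_leaf v f {v} (fun _ =>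
        mem_singleton_self v), by simpa using hh, fun j => j.elim, fun j => j.elim,
        by simpa using hv, fun u => ?_⟩
      simp only [Net.reads, mem_singleton, univ_eq_empty, filter_empty, card_empty, zero_add]
      by_cases huv : u = v
      · rw [if_pos huv, if_pos huv.symm]
      · rw [if_neg huv]
        exact Nat.zero_le _
    · refine ⟨Empty, inferInstance, fun j => j.elim, ∅, dc_leaf v f ∅ (fun h' =>
        absurd (mem_coe.1 h') hv), by simp, fun j => j.elim, fun j => j.elim,
        empty_subset _, fun u => ?_⟩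
      simp
  | node l r c hl hr =>
    obtain ⟨J₁, i₁, S₁, A₁, a1, a2, a3, a4, a5, a6⟩ := hl
    obtain ⟨J₂, i₂, S₂, A₂, b1, b2, b3, b4, b5, b6⟩ := hr
    have hdc := dc_node c a1 b1
    have hcnt : ∀ v, (univ.filter (fun j => v ∈ Sum.elim S₁ S₂ j)).card +
        (if v ∈ A₁ ∪ A₂ then 1 else 0) ≤ (Net.node l r c).reads v := by
      intro v
      have e1 : (univ.filter (fun j => v ∈ Sum.elim S₁ S₂ j)).card =
          (univ.filter (fun j => v ∈ S₁ j)).card + (univ.filter (fun j => v ∈ S₂ j)).card := by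
        rw [card_filter, card_filter, card_filter, Fintype.sum_sum_type]
        rfl
      have e2 : (if v ∈ A₁ ∪ A₂ then 1 else 0) ≤
          (if v ∈ A₁ then 1 else 0) + (if v ∈ A₂ then 1 else 0) := by
        by_cases h1 : v ∈ A₁
        · rw [if_pos (mem_union_left _ h1), if_pos h1]
          omega
        · by_cases h2 : v ∈ A₂
          · rw [if_pos (mem_union_right _ h2), if_pos h2, if_neg h1]
          · rw [if_neg (fun h => (mem_union.1 h).elim h1 h2)]
            exact Nat.zero_le _
      have e3 := a6 v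
      have e4 := b6 v
      rw [e1]
      unfold Net.reads
      omega
    have hAc : (A₁ ∪ A₂).card ≤ 2 * h := by
      have := card_union_le A₁ A₂
      omega
    have hsz : ∀ j, h < (Sum.elim S₁ S₂ j).card ∧ (Sum.elim S₁ S₂ j).card ≤ 2 * h := by
      rintro (j | j)
      · exact a3 j
      · exact b3 j
    have hsub : ∀ j, Sum.elim S₁ S₂ j ⊆ D := by
      rintro (j | j)
      · exact a4 j
      · exact b4 j
    have hA : A₁ ∪ A₂ ⊆ D := union_subset a5 b5
    by_cases hbig : (A₁ ∪ A₂).card ≤ h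
    · exact ⟨J₁ ⊕ J₂, inferInstance, Sum.elim S₁ S₂, A₁ ∪ A₂, hdc, hbig, hsz, hsub, hA, hcnt⟩
    · refine ⟨Option (J₁ ⊕ J₂), inferInstance, fun j => j.elim (A₁ ∪ A₂) (Sum.elim S₁ S₂), ∅,
        dc_close hdc, by simp, ?_, ?_, empty_subset _, fun v => ?_⟩
      · intro j
        cases j with
        | none => exact ⟨not_le.1 hbig, hAc⟩
        | some j => exact hsz j
      · intro j
        cases j with
        | none => exact hA
        | some j => exact hsub j
      · refine le_trans (le_of_eq ?_) (hcnt v)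
        rw [card_filter, card_filter, Fintype.sum_option]
        show (if v ∈ A₁ ∪ A₂ then 1 else 0) +
          (∑ j : J₁ ⊕ J₂, (if v ∈ Sum.elim S₁ S₂ j then 1 else 0)) +
          (if v ∈ (∅ : Finset V) then 1 else 0) = (∑ j : J₁ ⊕ J₂,
            (if v ∈ Sum.elim S₁ S₂ j then 1 else 0)) + (if v ∈ A₁ ∪ A₂ then 1 else 0)
        rw [if_neg (notMem_empty v), add_zero, add_comm]

end Pool.Agent.V11163.GI
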