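import Mathlib

/-!
# The asymptotic form of the bounds
-/

set_option autoImplicit false

open Filter

namespace Pool.Agent.V11163.GI

theorem factorial_le_two_rpow {n : ℕ} (hn : 1 ≤ n) :
    (n.factorial : ℝ) ≤ 2 ^ ((n : ℝ) * Real.logb 2 n) := by
  have h1 : (n.factorial : ℝ) ≤ (n : ℝ) ^ n := by exact_mod_cast Nat.factorial_le_pow n
  have hn0 : (0 : ℝ) < n := by exact_mod_cast hn
  have h2 : (2 : ℝ) ^ ((n : ℝ) * Real.logb 2 n) = (n : ℝ) ^ n := by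
    rw [mul_comm, Real.rpow_mul (by norm_num), Real.rpow_logb (by norm_num) (by norm_num) hn0,
      Real.rpow_natCast]
  rw [h2]
  exact h1

/-- The final inequality is false for large `n`. -/
theorem numeric (κ : ℕ) (ε : ℝ) (hε : 0 < ε) (hε1 : ε ≤ 1) : ∃ n₀ : ℕ, 2 ≤ n₀ ∧ ∀ n ≥ n₀,
    ∀ r θ w μ K : ℕ, (r : ℝ) ≤ ε / 100 * Real.logb 2 n + 1 →
      (((θ + 1) * w : ℕ) : ℝ) ≤ (n : ℝ) ^ (2 - ε) → (μ : ℝ) ≤ (n : ℝ) ^ (1 - ε) →
      K = 10000 * r ^ 2 * (κ + 1) * (θ + 1) →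
      μ + 2 ≤ n / 2 ^ (48 * r + 12) ∧
      ¬ 2 ^ (n ^ 2 / 2 ^ (48 * r + 8)) ≤ 2 ^ (μ + 1) * (n.factorial * (2 ^ w) ^ K) := by
  obtain ⟨D, hD⟩ : ∃ D : ℝ, D = 20 / ε + 1 := ⟨_, rfl⟩
  have hDpos : 1 ≤ D := by
    rw [hD]
    have : 0 < 20 / ε := by positivity
    linarith
  obtain ⟨Cc, hCc⟩ : ∃ Cc : ℝ, Cc = 4 + D + 10000 * (κ + 1) * D ^ 2 := ⟨_, rfl⟩
  have hCc1 : 1 ≤ Cc := by
    rw [hCc]
    have : 0 ≤ 10000 * ((κ : ℝ) + 1) * D ^ 2 := by positivity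
    linarith
  obtain ⟨W, hW⟩ : ∃ W : ℝ, W = 2 ^ 62 * Cc := ⟨_, rfl⟩
  have htend : Tendsto (fun m : ℕ => (m : ℝ) ^ (ε / 10)) atTop atTop :=
    (tendsto_rpow_atTop (by positivity)).comp tendsto_natCast_atTop_atTop
  obtain ⟨n₀, hn₀⟩ := (htend.eventually_gt_atTop W).exists_forall_of_atTop
  refine ⟨max n₀ 2, le_max_right _ _, fun n hn r θ w μ K hr hθ hμ hK => ?_⟩
  have hu := hn₀ n (le_trans (le_max_left _ _) hn)
  have hn2 : 2 ≤ n := le_trans (le_max_right _ _) hn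
  have hx2 : (2 : ℝ) ≤ n := by exact_mod_cast hn2
  obtain ⟨x, hx⟩ : ∃ x : ℝ, x = n := ⟨_, rfl⟩
  have hfac := factorial_le_two_rpow (n := n) (by omega)
  rw [← hx] at hu hx2 hθ hr hμ hfac
  obtain ⟨u, hud⟩ : ∃ u : ℝ, u = x ^ (ε / 10) := ⟨_, rfl⟩
  rw [← hud] at hu
  have hx0 : (0 : ℝ) < x := by linarith
  have hx1 : (1 : ℝ) ≤ x := by linarith
  have hu1 : (1 : ℝ) ≤ u := by rw [hud]; exact Real.one_le_rpow hx1 (by positivity)
  have hu62 : (2 : ℝ) ^ 62 ≤ u := by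
    rw [hW] at hu
    nlinarith
  have hlog2 : (1 / 2 : ℝ) < Real.log 2 := by
    have := Real.log_two_gt_d9
    linarith
  have hlogx : 0 ≤ Real.log x := Real.log_nonneg hx1
  have hlogb0 : 0 ≤ Real.logb 2 x := Real.logb_nonneg (by norm_num) hx1
  have hlogb : Real.logb 2 x ≤ 20 / ε * u := by
    have h1 := Real.log_le_rpow_div hx0.le (show (0 : ℝ) < ε / 10 by positivity)
    have h2 : Real.logb 2 x ≤ 2 * Real.log x := by
      rw [Real.logb, div_le_iff₀ (by linarith)]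
      nlinarith
    calc Real.logb 2 x ≤ 2 * Real.log x := h2
      _ ≤ 2 * (x ^ (ε / 10) / (ε / 10)) := by linarith
      _ = _ := by rw [hud]; field_simp; ring
  have hlogD : Real.logb 2 x + 1 ≤ D * u := by
    rw [hD, add_mul, one_mul]
    linarith
  have hrD : (r : ℝ) ≤ D * u := by
    have : ε / 100 * Real.logb 2 x ≤ 1 * Real.logb 2 x := by
      apply mul_le_mul_of_nonneg_right _ hlogb0
      linarith
    linarith
  have hr2 : (r : ℝ) ^ 2 ≤ D ^ 2 * u ^ 2 := by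
    calc (r : ℝ) ^ 2 ≤ (D * u) ^ 2 := by
          apply pow_le_pow_left₀ (Nat.cast_nonneg r) hrD
      _ = _ := by ring
  -- the power of two
  have hpow : (2 : ℝ) ^ (48 * r) ≤ 2 ^ 48 * x ^ (48 / 100 * ε) := by
    have h1 : (2 : ℝ) ^ (48 * r) = 2 ^ (48 * (r : ℝ)) := by
      rw [← Real.rpow_natCast]
      push_cast
      rfl
    have h2 : (2 : ℝ) ^ (48 * (r : ℝ)) ≤ 2 ^ (48 + 48 / 100 * ε * Real.logb 2 x) := by
      apply Real.rpow_le_rpow_of_exponent_le (by norm_num)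
      linarith
    have h3 : (2 : ℝ) ^ (48 + 48 / 100 * ε * Real.logb 2 x) = 2 ^ 48 * x ^ (48 / 100 * ε) := by
      rw [Real.rpow_add (by norm_num), mul_comm (48 / 100 * ε), Real.rpow_mul (by norm_num),
        Real.rpow_logb (by norm_num) (by norm_num) hx0]
      norm_num
    rw [h1]
    exact h2.trans (le_of_eq h3)
  have hu5 : u ^ 5 * x ^ (48 / 100 * ε) ≤ x ^ ε := by
    have h1 : u ^ 5 = x ^ (ε / 2) := by
      rw [hud, ← Real.rpow_natCast, ← Real.rpow_mul hx0.le]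
      congr 1
      push_cast
      ring
    rw [h1, ← Real.rpow_add hx0]
    apply Real.rpow_le_rpow_of_exponent_le hx1
    linarith
  have hP0 : (0 : ℝ) < x ^ (48 / 100 * ε) := by positivity
  have hxe : (0 : ℝ) < x ^ ε := by positivity
  have hxx1 : x = x ^ (1 - ε) * x ^ ε := by
    rw [← Real.rpow_add hx0]
    simp
  have hxx2 : x ^ 2 = x ^ (2 - ε) * x ^ ε := by
    rw [← Real.rpow_add hx0]
    simp
  have hone1 : (1 : ℝ) ≤ x ^ (1 - ε) := Real.one_le_rpow hx1 (by linarith)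
  have hone2 : (1 : ℝ) ≤ x ^ (2 - ε) := Real.one_le_rpow hx1 (by linarith)
  have h12 : x ^ (1 - ε) ≤ x ^ (2 - ε) := Real.rpow_le_rpow_of_exponent_le hx1 (by linarith)
  have hx12 : x ≤ x ^ (2 - ε) := by
    calc x = x ^ (1 : ℝ) := (Real.rpow_one x).symm
      _ ≤ _ := Real.rpow_le_rpow_of_exponent_le hx1 (by linarith)
  constructor
  · -- the acceptance probability
    have h1 : ((μ : ℝ) + 3) * (2 : ℝ) ^ (48 * r + 12) ≤ x := by
      have h2 : (μ : ℝ) + 3 ≤ 4 * x ^ (1 - ε) := by linarith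
      have h3 : (2 : ℝ) ^ (48 * r + 12) ≤ 2 ^ 60 * x ^ (48 / 100 * ε) := by
        rw [pow_add]
        calc (2 : ℝ) ^ (48 * r) * 2 ^ 12 ≤ (2 ^ 48 * x ^ (48 / 100 * ε)) * 2 ^ 12 :=
              mul_le_mul_of_nonneg_right hpow (by positivity)
          _ = _ := by ring
      have h4 : (2 : ℝ) ^ 62 * x ^ (48 / 100 * ε) ≤ x ^ ε := by
        refine le_trans (mul_le_mul_of_nonneg_right ?_ hP0.le) hu5
        calc (2 : ℝ) ^ 62 ≤ u := hu62
          _ = u ^ 1 := (pow_one u).symm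
          _ ≤ u ^ 5 := pow_le_pow_right₀ hu1 (by norm_num)
      calc ((μ : ℝ) + 3) * (2 : ℝ) ^ (48 * r + 12) ≤
          (4 * x ^ (1 - ε)) * (2 ^ 60 * x ^ (48 / 100 * ε)) :=
            mul_le_mul h2 h3 (by positivity) (by positivity)
        _ = x ^ (1 - ε) * (2 ^ 62 * x ^ (48 / 100 * ε)) := by ring
        _ ≤ x ^ (1 - ε) * x ^ ε := mul_le_mul_of_nonneg_left h4 (by positivity)
        _ = x := hxx1.symm
    rw [hx] at h1
    have h2 : (μ + 3) * 2 ^ (48 * r + 12) ≤ n := by exact_mod_cast h1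
    have h3 := (Nat.le_div_iff_mul_le (by positivity)).2 h2
    omega
  · intro hcon
    have h1 : (2 : ℝ) ^ (((n ^ 2 / 2 ^ (48 * r + 8) : ℕ) : ℝ)) ≤
        2 ^ ((μ : ℝ) + 1 + x * Real.logb 2 x + w * K) := by
      have h2 : ((2 ^ (n ^ 2 / 2 ^ (48 * r + 8)) : ℕ) : ℝ) ≤
          ((2 ^ (μ + 1) * (n.factorial * (2 ^ w) ^ K) : ℕ) : ℝ) := by exact_mod_cast hcon
      push_cast at h2
      rw [Real.rpow_natCast]
      refine h2.trans ?_
      rw [Real.rpow_add (by norm_num), Real.rpow_add (by norm_num)]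
      have e1 : (2 : ℝ) ^ ((μ : ℝ) + 1) = 2 ^ (μ + 1) := by
        rw [← Real.rpow_natCast]
        push_cast
        rfl
      have e2 : (2 : ℝ) ^ ((w : ℝ) * K) = (2 ^ w) ^ K := by
        rw [Real.rpow_mul (by norm_num), Real.rpow_natCast, Real.rpow_natCast]
      rw [e1, e2, mul_assoc]
      refine mul_le_mul_of_nonneg_left ?_ (by positivity)
      exact mul_le_mul_of_nonneg_right hfac (by positivity)
    have h2 : ((n ^ 2 / 2 ^ (48 * r + 8) : ℕ) : ℝ) ≤ (μ : ℝ) + 1 + x * Real.logb 2 x + w * K :=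
      (Real.rpow_le_rpow_left_iff (by norm_num)).1 h1
    have h3 : x ^ 2 < (((n ^ 2 / 2 ^ (48 * r + 8) : ℕ) : ℝ) + 1) * 2 ^ (48 * r + 8) := by
      have h4 : n ^ 2 < (n ^ 2 / 2 ^ (48 * r + 8) + 1) * 2 ^ (48 * r + 8) := by
        rw [mul_comm]
        exact Nat.lt_mul_div_succ _ (by positivity)
      rw [hx]
      exact_mod_cast h4
    have hwK : (w : ℝ) * K ≤ 10000 * (κ + 1) * D ^ 2 * (u ^ 2 * x ^ (2 - ε)) := by
      rw [hK]
      push_cast
      have h5 : ((θ : ℝ) + 1) * w ≤ x ^ (2 - ε) := by exact_mod_cast hθ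
      calc (w : ℝ) * (10000 * (r : ℝ) ^ 2 * (κ + 1) * (θ + 1)) =
          10000 * (κ + 1) * ((r : ℝ) ^ 2 * ((θ + 1) * w)) := by ring
        _ ≤ 10000 * (κ + 1) * ((D ^ 2 * u ^ 2) * x ^ (2 - ε)) := by
            refine mul_le_mul_of_nonneg_left ?_ (by positivity)
            exact mul_le_mul hr2 h5 (by positivity) (by positivity)
        _ = _ := by ring
    have hu2 : 1 ≤ u ^ 2 := one_le_pow₀ hu1
    have huu : u ≤ u ^ 2 := by nlinarith
    have hB0 : 0 < u ^ 2 * x ^ (2 - ε) := by positivity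
    have hB1 : x ^ (2 - ε) ≤ u ^ 2 * x ^ (2 - ε) :=
      le_mul_of_one_le_left (le_trans zero_le_one hone2) hu2
    have hxl : x * Real.logb 2 x ≤ D * (u ^ 2 * x ^ (2 - ε)) := by
      have h5 : Real.logb 2 x ≤ D * u := by linarith
      calc x * Real.logb 2 x ≤ x ^ (2 - ε) * (D * u ^ 2) := by
            refine mul_le_mul hx12 ?_ hlogb0 (by positivity)
            exact h5.trans (mul_le_mul_of_nonneg_left huu (by linarith))
        _ = _ := by ring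
    have htot : (μ : ℝ) + 2 + x * Real.logb 2 x + w * K ≤ Cc * (u ^ 2 * x ^ (2 - ε)) := by
      rw [hCc]
      obtain ⟨Y, hY⟩ : ∃ Y, Y = u ^ 2 * x ^ (2 - ε) := ⟨_, rfl⟩
      rw [← hY] at hB1 hxl hwK ⊢
      have e1 : (4 + D + 10000 * ((κ : ℝ) + 1) * D ^ 2) * Y =
          4 * Y + D * Y + 10000 * ((κ : ℝ) + 1) * D ^ 2 * Y := by ring
      rw [e1]
      have e2 : (μ : ℝ) ≤ Y := hμ.trans (h12.trans hB1)
      have e3 : 1 ≤ Y := hone2.trans hB1
      linarith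
    have h6 : x ^ 2 < Cc * (u ^ 2 * x ^ (2 - ε)) * (2 ^ 56 * x ^ (48 / 100 * ε)) := by
      have h7 : (2 : ℝ) ^ (48 * r + 8) ≤ 2 ^ 56 * x ^ (48 / 100 * ε) := by
        rw [pow_add]
        calc (2 : ℝ) ^ (48 * r) * 2 ^ 8 ≤ (2 ^ 48 * x ^ (48 / 100 * ε)) * 2 ^ 8 :=
              mul_le_mul_of_nonneg_right hpow (by positivity)
          _ = _ := by ring
      calc x ^ 2 < (((n ^ 2 / 2 ^ (48 * r + 8) : ℕ) : ℝ) + 1) * 2 ^ (48 * r + 8) := h3
        _ ≤ (Cc * (u ^ 2 * x ^ (2 - ε))) * (2 ^ 56 * x ^ (48 / 100 * ε)) := by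
            refine mul_le_mul ?_ h7 (by positivity) (by positivity)
            linarith
    have h8 : Cc * (u ^ 2 * x ^ (2 - ε)) * (2 ^ 56 * x ^ (48 / 100 * ε)) ≤ x ^ 2 := by
      rw [hxx2]
      have h9 : Cc * 2 ^ 56 * u ^ 2 ≤ u ^ 5 := by
        have h10 : Cc * 2 ^ 56 ≤ u := by
          rw [hW] at hu
          refine le_trans ?_ hu.le
          rw [mul_comm]
          exact mul_le_mul_of_nonneg_right (by norm_num) (by linarith)
        calc Cc * 2 ^ 56 * u ^ 2 ≤ u * u ^ 2 := mul_le_mul_of_nonneg_right h10 (by positivity)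
          _ = u ^ 3 := by ring
          _ ≤ u ^ 5 := pow_le_pow_right₀ hu1 (by norm_num)
      calc Cc * (u ^ 2 * x ^ (2 - ε)) * (2 ^ 56 * x ^ (48 / 100 * ε)) =
          x ^ (2 - ε) * ((Cc * 2 ^ 56 * u ^ 2) * x ^ (48 / 100 * ε)) := by ring
        _ ≤ x ^ (2 - ε) * (u ^ 5 * x ^ (48 / 100 * ε)) :=
            mul_le_mul_of_nonneg_left (mul_le_mul_of_nonneg_right h9 hP0.le) (by positivity)
        _ ≤ _ := mul_le_mul_of_nonneg_left hu5 (by positivity)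
    linarith

end Pool.Agent.V11163.GI
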