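import Pool.Agent.V11163.GI.Tw
import Pool.Agent.V11163.GI.Num

/-!
# Word circuits for graph isomorphism: the final form
-/

set_option autoImplicit false

open Finset

namespace Pool.Agent.V11163.GI

open Pool.Agent.H526R2.GI Pool.Agent.Y631.Wc

theorem card_Pr' (n : ℕ) : Fintype.card (Pr n) = n * (n - 1) / 2 := by
  have := card_Pr n
  omega

theorem choose_r' {n R : ℕ} {ε : ℝ} (hε : 0 < ε) (hn : 2 ≤ n)
    (h : (R : ℝ) < ε / 200 * (n ^ 2 * Real.logb 2 n)) :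
    ∃ r : ℕ, r = ⌊ε / 100 * Real.logb 2 n⌋₊ + 1 ∧ R ≤ r * (n * (n - 1)) ∧
      (r : ℝ) ≤ ε / 100 * Real.logb 2 n + 1 := by
  have hn0 : (0 : ℝ) < n := by exact_mod_cast (by omega : 0 < n)
  have hlog : 0 ≤ Real.logb 2 n :=
    Real.logb_nonneg (by norm_num) (by exact_mod_cast (by omega : 1 ≤ n))
  have h0 : 0 ≤ ε / 100 * Real.logb 2 n := mul_nonneg (by positivity) hlog
  refine ⟨_, rfl, ?_, ?_⟩
  · have h1 := Nat.lt_floor_add_one (ε / 100 * Real.logb 2 n)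
    have h2 : n * n ≤ 2 * (n * (n - 1)) := by
      obtain ⟨k, rfl⟩ : ∃ k, n = k + 2 := ⟨n - 2, by omega⟩
      have : k + 2 - 1 = k + 1 := by omega
      rw [this]
      nlinarith
    have h3 : (n : ℝ) ^ 2 ≤ 2 * ((n * (n - 1) : ℕ) : ℝ) := by
      rw [pow_two]
      exact_mod_cast h2
    have h4 : (0 : ℝ) ≤ ((n * (n - 1) : ℕ) : ℝ) := Nat.cast_nonneg _
    have h5 : (R : ℝ) < (((⌊ε / 100 * Real.logb 2 n⌋₊ + 1) * (n * (n - 1)) : ℕ) : ℝ) := by
      rw [Nat.cast_mul]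
      calc (R : ℝ) < ε / 200 * (n ^ 2 * Real.logb 2 n) := h
        _ = ε / 200 * Real.logb 2 n * n ^ 2 := by ring
        _ ≤ ε / 200 * Real.logb 2 n * (2 * ((n * (n - 1) : ℕ) : ℝ)) :=
            mul_le_mul_of_nonneg_left h3 (mul_nonneg (by positivity) hlog)
        _ = (ε / 100 * Real.logb 2 n) * ((n * (n - 1) : ℕ) : ℝ) := by ring
        _ ≤ _ := by
            refine mul_le_mul_of_nonneg_right ?_ h4
            push_cast
            exact h1.le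
    exact (by exact_mod_cast h5 : R < _).le
  · push_cast
    have := Nat.floor_le h0
    linarith

theorem asymptotic (κ : ℕ) (ε : ℝ) (hε : 0 < ε) (hε1 : ε ≤ 1) : ∃ n₀ : ℕ, ∀ n ≥ n₀,
    ∀ θ w μ : ℕ, 1 ≤ w → (((θ + 1) * w : ℕ) : ℝ) ≤ (n : ℝ) ^ (2 - ε) →
      (μ : ℝ) ≤ (n : ℝ) ^ (1 - ε) →
    (∀ (R : Type) [Fintype R] [Nonempty R] (Z : R → Type) [∀ i, Fintype (Z i)]
      (C : ∀ i, WCirc (Var n) Bool (Z i)),
      (∀ i, Fintype.card (Z i) ≤ 2 ^ w ∧ (C i).FanIn κ ∧ (C i).TreewidthLE θ) →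
      (∀ i z, (C i).Accepts z → IsIso z) →
      (∀ z, IsIso z → Nat.card R ≤ 2 ^ μ * Nat.card {i // (C i).Accepts z}) →
      ∃ i, ε / 200 * (n ^ 2 * Real.logb 2 n) ≤ (C i).reads) ∧
    ∀ (Z : Type) [Fintype Z] (C : WCirc (Var n) Bool Z), Fintype.card Z ≤ 2 ^ w →
      C.FanIn κ → C.TreewidthLE θ → C.Unambiguous → (∀ z, C.Accepts z ↔ ¬ IsIso z) →
      ε / 200 * (n ^ 2 * Real.logb 2 n) ≤ C.reads := by
  obtain ⟨n₀, hn₀, h⟩ := numeric κ ε hε hε1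
  refine ⟨n₀, fun n hn θ w μ hw hθ hμ => ⟨?_, ?_⟩⟩
  · intro R _ _ Z _ C hC hno hyes
    by_contra hcon
    push Not at hcon
    have hn2 : 2 ≤ n := hn₀.trans hn
    obtain ⟨i₀⟩ := ‹Nonempty R›
    obtain ⟨r, hr, -, hr2⟩ := choose_r' hε hn2 (hcon i₀)
    have hreads : ∀ i, (C i).reads ≤ r * (n * (n - 1)) := by
      intro i
      obtain ⟨r', hr', h3, -⟩ := choose_r' hε hn2 (hcon i)
      rw [hr, ← hr']
      exact h3
    obtain ⟨h4, h5⟩ := h n hn r θ w μ _ hr2 hθ hμ rfl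
    refine h5 (tw_random (r := r) (κ := κ) (θ := θ) (by omega) ?_ R Z (fun i => (hC i).1) C
      (fun i => (hC i).2.1) (fun i => (hC i).2.2) hreads rfl h4 hno hyes)
    calc 2 = 2 ^ 1 := rfl
      _ ≤ 2 ^ w := Nat.pow_le_pow_right (by norm_num) hw
  · intro Z _ C hZ hκ hθC hU hC
    by_contra hcon
    push Not at hcon
    have hn2 : 2 ≤ n := hn₀.trans hn
    obtain ⟨r, hr, hr1, hr2⟩ := choose_r' hε hn2 hcon
    obtain ⟨-, h5⟩ := h n hn r θ w μ _ hr2 hθ hμ rfl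
    apply h5
    have h6 := tw_bounds (r := r) (κ := κ) (θ := θ) (L := 2 ^ w) (by omega) (by
      calc 2 = 2 ^ 1 := rfl
        _ ≤ 2 ^ w := Nat.pow_le_pow_right (by norm_num) hw) hZ C hκ hθC hr1 rfl (Or.inr ⟨hU, hC⟩)
    refine le_trans (Nat.pow_le_pow_right (by norm_num) ?_)
      (h6.trans (Nat.le_mul_of_pos_left _ (by positivity)))
    have h7 : 2 ^ (48 * r + 8) = 4 ^ (24 * r) * 256 := by
      rw [pow_add, show (4 : ℕ) = 2 ^ 2 by norm_num, ← pow_mul]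
      have : 2 * (24 * r) = 48 * r := by ring
      rw [this]
      norm_num
    rw [h7, Nat.mul_comm, ← Nat.div_div_eq_div_mul]
    refine Nat.div_le_div_right ?_
    have h8 := card_Pr n
    have h9 : n ^ 2 = n * n := pow_two n
    have hn1 : n * (n - 1) = n * n - n := by rw [Nat.mul_sub, mul_one]
    have hnn : 2 * n ≤ n * n := Nat.mul_le_mul_right _ hn2
    omega

end Pool.Agent.V11163.GI
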