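import Pool.Agent.V11163.GI.Acc
import Pool.Agent.Y631.WcC
import Pool.Agent.H538R4.SP.Sat

/-!
# Word circuits for graph isomorphism: number of reads and treewidth
-/

set_option autoImplicit false

open Finset

namespace Pool.Agent.V11163.GI

open Pool.Agent.H526R2.GI Pool.Agent.Y631.Wc

variable {n : ℕ}

/-- The left variables in `A` and the right variables in `E` are linked by many graphs. -/
theorem exists_family {M t : ℕ} (hM : M = Fintype.card (Pr n))
    (A E : Finset (Var n)) (hA : A ⊆ univ.image Sum.inl) (hE : E ⊆ univ.image Sum.inr)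
    (hAc : M ≤ t * A.card) (hEc : M ≤ t * E.card) :
    ∃ (σ : Equiv.Perm (Fin n)) (S : Finset (Pr n → Bool)),
      (∀ x ∈ S, ∀ y ∈ S, IsIso (two σ x y) → x = y) ∧
      (∀ x ∈ S, ∀ x' ∈ S, ∀ y, ∀ v, v ∉ A → two σ x y v = two σ x' y v) ∧
      (∀ y ∈ S, ∀ y' ∈ S, ∀ x, ∀ v, v ∉ E → two σ x y v = two σ x y' v) ∧
      2 ^ (M / t ^ 2) ≤ n.factorial * S.card := by
  classical
  obtain ⟨A', hA'⟩ : ∃ A' : Finset (Pr n), A' = univ.filter (fun e => Sum.inl e ∈ A) := ⟨_, rfl⟩
  obtain ⟨E', hE'⟩ : ∃ E' : Finset (Pr n), E' = univ.filter (fun e => Sum.inr e ∈ E) := ⟨_, rfl⟩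
  have hA'm : ∀ e, e ∈ A' ↔ Sum.inl e ∈ A := by intro e; rw [hA', mem_filter]; simp
  have hE'm : ∀ e, e ∈ E' ↔ Sum.inr e ∈ E := by intro e; rw [hE', mem_filter]; simp
  have hA'c : A.card ≤ A'.card := by
    have h1 : A ⊆ A'.image Sum.inl := by
      intro v hv
      obtain ⟨e, -, rfl⟩ := mem_image.1 (hA hv)
      exact mem_image.2 ⟨e, (hA'm e).2 hv, rfl⟩
    exact (card_le_card h1).trans card_image_le
  have hE'c : E.card ≤ E'.card := by
    have h1 : E ⊆ E'.image Sum.inr := by
      intro v hv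
      obtain ⟨e, -, rfl⟩ := mem_image.1 (hE hv)
      exact mem_image.2 ⟨e, (hE'm e).2 hv, rfl⟩
    exact (card_le_card h1).trans card_image_le
  obtain ⟨σ, hσ⟩ := exists_hits A' E'
  obtain ⟨F, hF⟩ : ∃ F : Finset (Pr n), F = A'.filter (fun e => act σ e ∈ E') := ⟨_, rfl⟩
  rw [← hF] at hσ
  have hFc : M / t ^ 2 ≤ F.card := by
    rcases Nat.eq_zero_or_pos M with h0 | h0
    · rw [h0, Nat.zero_div]
      exact Nat.zero_le _
    rw [← hM] at hσ
    have h1 : M * M ≤ t ^ 2 * (M * F.card) := by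
      calc M * M ≤ (t * A.card) * (t * E.card) := Nat.mul_le_mul hAc hEc
        _ ≤ (t * A'.card) * (t * E'.card) := by gcongr
        _ = t ^ 2 * (A'.card * E'.card) := by ring
        _ ≤ t ^ 2 * (M * F.card) := Nat.mul_le_mul_left _ hσ
    have h2 : M ≤ t ^ 2 * F.card := by
      refine Nat.le_of_mul_le_mul_left (c := M) ?_ h0
      calc M * M ≤ t ^ 2 * (M * F.card) := h1
        _ = _ := by ring
    exact Nat.div_le_of_le_mul h2
  obtain ⟨X, hX⟩ : ∃ X : Finset (Pr n → Bool),
    X = univ.filter (fun x => ∀ e, e ∉ F → x e = false) := ⟨_, rfl⟩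
  have hXm : ∀ x, x ∈ X ↔ ∀ e, e ∉ F → x e = false := by
    intro x
    rw [hX, mem_filter]
    simp
  have hXc : 2 ^ F.card ≤ X.card := by
    have h1 : Fintype.card (F → Bool) = 2 ^ F.card := by
      rw [Fintype.card_fun, Fintype.card_bool, Fintype.card_coe]
    rw [← h1, ← card_univ]
    refine card_le_card_of_injOn (fun z e => if h : e ∈ F then z ⟨e, h⟩ else false) ?_ ?_
    · intro z _
      rw [mem_coe, hXm]
      intro e he
      exact dif_neg he
    · intro z _ z' _ h
      funext e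
      have h2 := congrFun h e.1
      simp only [dif_pos e.2] at h2
      exact h2
  obtain ⟨S, hS1, hS2, hS3⟩ := exists_reps X
  have hFm : ∀ e, e ∈ F ↔ Sum.inl e ∈ A ∧ Sum.inr (act σ e) ∈ E := by
    intro e
    rw [hF, mem_filter, hA'm, hE'm]
  refine ⟨σ, S, fun x hx y hy h => hS2 x hx y hy ((isIso_two σ x y).1 h), ?_, ?_,
    ((Nat.pow_le_pow_right (by norm_num) hFc).trans hXc).trans hS3⟩
  · intro x hx x' hx' y v hv
    cases v with
    | inl e =>
      have he : e ∉ F := fun h => hv ((hFm e).1 h).1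
      simp only [two, Sum.elim_inl]
      rw [(hXm x).1 (hS1 hx) e he, (hXm x').1 (hS1 hx') e he]
    | inr e => rfl
  · intro y hy y' hy' x v hv
    cases v with
    | inl e => rfl
    | inr e =>
      have he : (act σ).symm e ∉ F := by
        intro h
        have := ((hFm _).1 h).2
        rw [Equiv.apply_symm_apply] at this
        exact hv this
      simp only [two, Sum.elim_inr]
      rw [(hXm y).1 (hS1 hy) _ he, (hXm y').1 (hS1 hy') _ he]

/-- The bounds for graph isomorphism. -/
theorem tw_bounds {r κ θ L K : ℕ} (hr : 1 ≤ r) (hL : 2 ≤ L) {Z : Type} [Fintype Z]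
    (hZ : Fintype.card Z ≤ L) (C : WCirc (Var n) Bool Z) (hκ : C.FanIn κ) (hθ : C.TreewidthLE θ)
    (hR : C.reads ≤ r * (n * (n - 1))) (hK : K = 10000 * r ^ 2 * (κ + 1) * (θ + 1))
    (hC : (∀ z, C.Accepts z ↔ IsIso z) ∨ (C.Unambiguous ∧ ∀ z, C.Accepts z ↔ ¬ IsIso z)) :
    2 ^ (Fintype.card (Pr n) / 4 ^ (24 * r)) ≤ n.factorial * L ^ K := by
  classical
  obtain ⟨M, hM⟩ : ∃ M, M = Fintype.card (Pr n) := ⟨_, rfl⟩
  rw [← hM]
  have hcard := card_Pr n
  rw [← hM] at hcard
  have hf : 1 ≤ n.factorial := Nat.factorial_pos n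
  have hLK : 1 ≤ L ^ K := Nat.one_le_pow _ _ (by omega)
  have h4 : 1 ≤ 4 ^ (24 * r) := Nat.one_le_pow _ _ (by norm_num)
  by_cases hM24 : 24 * r ≤ M
  · -- the main case
    have hX1 : (univ.image (Sum.inl : Pr n → Var n)).card = M := by
      rw [card_image_of_injective _ Sum.inl_injective, card_univ, hM]
    have hX2 : (univ.image (Sum.inr : Pr n → Var n)).card = M := by
      rw [card_image_of_injective _ Sum.inr_injective, card_univ, hM]
    rcases C.core hr hκ hθ hR _ _ hX1 hX2 (by omega) hM24 hK with h |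
      ⟨B, A, E, hA, hE, hAc, hEc, hB, hmix⟩
    · calc 2 ^ (M / 4 ^ (24 * r)) ≤ 2 ^ K :=
            Nat.pow_le_pow_right (by norm_num) ((Nat.div_le_self _ _).trans h)
        _ ≤ L ^ K := Nat.pow_le_pow_left hL _
        _ ≤ _ := Nat.le_mul_of_pos_left _ hf
    · obtain ⟨σ, S, hS1, hS2, hS3, hS4⟩ := exists_family hM A E hA hE hAc hEc
      have e1 : (4 ^ (12 * r)) ^ 2 = 4 ^ (24 * r) := by
        rw [← pow_mul]
        congr 1
        ring
      rw [e1] at hS4
      refine hS4.trans (Nat.mul_le_mul_left _ ?_)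
      have hcl : Fintype.card ({g // g ∈ C.plus B} → Z) ≤ L ^ K := by
        rw [Fintype.card_fun, Fintype.card_coe]
        exact (Nat.pow_le_pow_left hZ _).trans (Nat.pow_le_pow_right (by omega) hB)
      refine le_trans ?_ hcl
      have hdis : ∀ v, v ∈ A → v ∉ E := by
        intro v hv hv'
        obtain ⟨e, -, rfl⟩ := mem_image.1 (hA hv)
        obtain ⟨e', -, h⟩ := mem_image.1 (hE hv')
        cases h
      have rect : ∀ (c : {g // g ∈ C.plus B} → Z), ∀ a ∈ S, ∀ b ∈ S, ∀ a' ∈ S, ∀ b' ∈ S,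
          two σ a b ∈ C.Cls B c → two σ a' b' ∈ C.Cls B c → two σ a b' ∈ C.Cls B c := by
        intro c a ha b hb a' ha' b' hb' h1 h2
        apply hmix c _ _ _ h1 h2
        · intro i hiA hiE
          rw [hS3 b hb b' hb' a i hiE]
          exact hS2 a ha a' ha' b' i hiA
        · intro i hiA
          exact hS3 b' hb' b hb a i (hdis i hiA)
        · intro i hiA
          exact hS2 a ha a' ha' b' i hiA
      have hacc : ∀ z, (∃ c, z ∈ C.Cls B c) ↔ C.Accepts z := by
        intro z
        constructor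
        · rintro ⟨c, v, hv, ho, -⟩
          exact ⟨v, hv, ho⟩
        · rintro ⟨v, hv, ho⟩
          exact ⟨fun g => v g.1, v, hv, ho, fun _ => rfl⟩
      have hself : ∀ x, IsIso (two σ x x) := fun x => isIso_two_self σ x
      rcases hC with hC | ⟨hU, hC⟩
      · have h1 : ∀ a : S, ∃ c, two σ a.1 a.1 ∈ C.Cls B c := fun a =>
          (hacc _).2 ((hC _).2 (hself a.1))
        choose f hf using h1
        rw [← Fintype.card_coe]
        refine Fintype.card_le_of_injective f ?_
        intro a b hab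
        have h2 := hf a
        have h3 := hf b
        rw [← hab] at h3
        have h4 := rect _ a.1 a.2 a.1 a.2 b.1 b.2 b.1 b.2 h2 h3
        exact Subtype.ext (hS1 a.1 a.2 b.1 b.2 ((hC _).1 ((hacc _).1 ⟨_, h4⟩)))
      · rcases Nat.lt_or_ge S.card 2 with hS | hS
        · have hZ' : Nonempty ({g // g ∈ C.plus B} → Z) := by
            by_contra hne
            -- there are no possible values of the gates
            rw [not_nonempty_iff] at hne
            have h0 : ∀ z, ¬ C.Accepts z := fun z hz =>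
              hne.elim' (((hacc z).2 hz).choose)
            have h24 : 24 * r ≤ M := hM24
            obtain ⟨e⟩ : Nonempty (Pr n) := by
              rw [← Fintype.card_pos_iff, ← hM]
              omega
            have h2 := (hC (Sum.elim (fun _ => true) (fun _ => false))).not.1 (h0 _)
            rw [not_not, isIso_iff] at h2
            obtain ⟨π, h2⟩ := h2
            have := h2 e
            simp at this
          have := Fintype.card_pos_iff.2 hZ'
          omega
        · have e := S.equivFin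
          have h5 := rank_bound (k := 1) (q := S.card) (Cl := {g // g ∈ C.plus B} → Z)
            (fun c a b => two σ (e.symm (a 0)).1 (e.symm (b 0)).1 ∈ C.Cls B c)
            (fun c a b a' b' h1 h2 => rect c _ (e.symm _).2 _ (e.symm _).2 _ (e.symm _).2 _
              (e.symm _).2 h1 h2) hS ?_ ?_
          · rwa [pow_one] at h5
          · intro c c' a b h1 h2
            obtain ⟨v, hv, ho, hvc⟩ := h1
            obtain ⟨v', hv', ho', hvc'⟩ := h2
            have h3 := hU _ v v' hv ho hv' ho'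
            funext g
            rw [← hvc, ← hvc', h3]
          · intro a b
            rw [hacc, hC]
            constructor
            · intro h1 j hj
              apply h1
              have : j = 0 := Subsingleton.elim _ _
              rw [← this, hj]
              exact hself _
            · intro h1 h2
              have h3 := hS1 _ (e.symm (a 0)).2 _ (e.symm (b 0)).2 h2
              exact h1 0 (e.symm.injective (Subtype.ext h3))
  · have h1 : M / 4 ^ (24 * r) = 0 := by
      apply Nat.div_eq_of_lt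
      have h2 : 24 * r < 2 ^ (24 * r) := Nat.lt_two_pow_self
      have h3 : 2 ^ (24 * r) ≤ 4 ^ (24 * r) := Nat.pow_le_pow_left (by norm_num) _
      omega
    rw [h1, pow_zero]
    exact Nat.mul_pos hf hLK

/-- The bound for random circuits. -/
theorem tw_random {r κ θ L K μ : ℕ} (hr : 1 ≤ r) (hL : 2 ≤ L) (R : Type) [Fintype R] [Nonempty R]
    (Z : R → Type) [∀ i, Fintype (Z i)] (hZ : ∀ i, Fintype.card (Z i) ≤ L)
    (C : ∀ i, WCirc (Var n) Bool (Z i)) (hκ : ∀ i, (C i).FanIn κ)
    (hθ : ∀ i, (C i).TreewidthLE θ) (hR : ∀ i, (C i).reads ≤ r * (n * (n - 1)))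
    (hK : K = 10000 * r ^ 2 * (κ + 1) * (θ + 1)) (hμ : μ + 2 ≤ n / 2 ^ (48 * r + 12))
    (hno : ∀ i z, (C i).Accepts z → IsIso z)
    (hyes : ∀ z, IsIso z → Nat.card R ≤ 2 ^ μ * Nat.card {i // (C i).Accepts z}) :
    2 ^ (n ^ 2 / 2 ^ (48 * r + 8)) ≤ 2 ^ (μ + 1) * (n.factorial * L ^ K) := by
  classical
  obtain ⟨M, hM⟩ : ∃ M, M = Fintype.card (Pr n) := ⟨_, rfl⟩
  have hcard := card_Pr n
  rw [← hM] at hcard
  have hf : 1 ≤ n.factorial := Nat.factorial_pos n
  have hLK : 1 ≤ L ^ K := Nat.one_le_pow _ _ (by omega)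
  have hbig : 2 ^ (48 * r + 12) ≤ n := by
    by_contra h
    push Not at h
    rw [Nat.div_eq_of_lt h] at hμ
    omega
  have hn24 : 24 * r + 2 ≤ n := by
    have h1 : 48 * r + 12 < 2 ^ (48 * r + 12) := Nat.lt_two_pow_self
    omega
  have hn1 : n * (n - 1) = n * n - n := by rw [Nat.mul_sub, mul_one]
  have hnn : 2 * n ≤ n * n := Nat.mul_le_mul_right _ (by omega)
  have hM24 : 24 * r ≤ M := by
    have h1 : (24 * r + 2) * n ≤ n * n := Nat.mul_le_mul_right _ hn24
    have h2 : (24 * r + 2) * n = 24 * r * n + 2 * n := by ring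
    have h3 : 24 * r * 2 ≤ 24 * r * n := Nat.mul_le_mul_left _ (by omega)
    omega
  obtain ⟨i, hi⟩ := Pool.Agent.H538R4.SP.average
    (fun _ : Equiv.Perm (Fin n) × (Pr n → Bool) => True)
    (fun i y => (C i).Accepts (two y.1 y.2 y.2)) μ (by
      rintro ⟨σ, x⟩ -
      exact hyes _ (isIso_two_self σ x))
  have hacc : n.factorial * 2 ^ Fintype.card (Pr n) ≤ 2 ^ μ * (univ.filter
      (fun y : Equiv.Perm (Fin n) × (Pr n → Bool) => (C i).Accepts (two y.1 y.2 y.2))).card := by
    have e1 : Nat.card {x : Equiv.Perm (Fin n) × (Pr n → Bool) // True} =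
        n.factorial * 2 ^ Fintype.card (Pr n) := by
      rw [Nat.card_eq_fintype_card, Fintype.card_subtype_true, Fintype.card_prod,
        Fintype.card_perm, Fintype.card_fin, Fintype.card_fun, Fintype.card_bool]
    rw [e1] at hi
    refine hi.trans (Nat.mul_le_mul_left _ (le_of_eq ?_))
    rw [Nat.card_eq_fintype_card, Fintype.card_subtype]
  have hX1 : (univ.image (Sum.inl : Pr n → Var n)).card = M := by
    rw [card_image_of_injective _ Sum.inl_injective, card_univ, hM]
  have hX2 : (univ.image (Sum.inr : Pr n → Var n)).card = M := by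
    rw [card_image_of_injective _ Sum.inr_injective, card_univ, hM]
  have e2 : 256 * (4 ^ (12 * r)) ^ 2 = 2 ^ (48 * r + 8) := by
    rw [← pow_mul, show (4 : ℕ) = 2 ^ 2 by norm_num, ← pow_mul, pow_add]
    have : 2 * (12 * r * 2) = 48 * r := by ring
    rw [this]
    norm_num
    ring
  have e3 : 4096 * (4 ^ (12 * r)) ^ 2 = 2 ^ (48 * r + 12) := by
    rw [← pow_mul, show (4 : ℕ) = 2 ^ 2 by norm_num, ← pow_mul, pow_add]
    have : 2 * (12 * r * 2) = 48 * r := by ring
    rw [this]
    norm_num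
    ring
  rcases (C i).core hr (hκ i) (hθ i) (hR i) _ _ hX1 hX2 (by omega) hM24 hK with h |
    ⟨B, A, E, hA, hE, hAc, hEc, hB, hmix⟩
  · have h1 : n ^ 2 / 2 ^ (48 * r + 8) ≤ K := by
      refine le_trans ?_ h
      have h2 : 256 ≤ 2 ^ (48 * r + 8) := by
        rw [pow_add]
        have := Nat.one_le_two_pow (n := 48 * r)
        omega
      refine (Nat.div_le_div_left h2 (by norm_num)).trans ?_
      have h3 : n ^ 2 = n * n := pow_two n
      omega
    calc 2 ^ (n ^ 2 / 2 ^ (48 * r + 8)) ≤ 2 ^ K := Nat.pow_le_pow_right (by norm_num) h1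
      _ ≤ L ^ K := Nat.pow_le_pow_left hL _
      _ ≤ n.factorial * L ^ K := Nat.le_mul_of_pos_left _ hf
      _ ≤ _ := Nat.le_mul_of_pos_left _ (by positivity)
  · have hdis : ∀ v, v ∈ A → v ∉ E := by
      intro v hv hv'
      obtain ⟨e, -, rfl⟩ := mem_image.1 (hA hv)
      obtain ⟨e', -, h⟩ := mem_image.1 (hE hv')
      cases h
    have hcl : Fintype.card ({g // g ∈ (C i).plus B} → Z i) ≤ L ^ K := by
      rw [Fintype.card_fun, Fintype.card_coe]
      exact (Nat.pow_le_pow_left (hZ i) _).trans (Nat.pow_le_pow_right (by omega) hB)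
    have hlink : Link (fun z => (C i).Accepts z) A E (L ^ K) := by
      intro σ S hS0 hS1 hS2 hS3
      refine le_trans ?_ hcl
      have h1 : ∀ a : S, ∃ c, two σ a.1 a.1 ∈ (C i).Cls B c := by
        intro a
        obtain ⟨v, hv, ho⟩ := hS0 a.1 a.2
        exact ⟨fun g => v g.1, v, hv, ho, fun _ => rfl⟩
      choose f hf using h1
      rw [← Fintype.card_coe]
      refine Fintype.card_le_of_injective f ?_
      intro a b hab
      have h2 := hf a
      have h3 := hf b
      rw [← hab] at h3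
      have h4 : two σ a.1 b.1 ∈ (C i).Cls B (f a) := by
        apply hmix _ _ _ _ h2 h3
        · intro v hvA hvE
          rw [hS3 a.1 a.2 b.1 b.2 a.1 v hvE]
          exact hS2 a.1 a.2 b.1 b.2 b.1 v hvA
        · intro v hvA
          exact hS3 b.1 b.2 a.1 a.2 a.1 v (hdis v hvA)
        · intro v hvA
          exact hS2 a.1 a.2 b.1 b.2 b.1 v hvA
      obtain ⟨v, hv, ho, -⟩ := h4
      exact Subtype.ext (hS1 a.1 a.2 b.1 b.2 (hno i _ ⟨v, hv, ho⟩))
    have h5 := link_all (t := 4 ^ (12 * r)) (μ := μ) (by omega)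
      (Nat.one_le_pow _ _ (by norm_num)) hA hE (by rw [← hM]; exact hAc)
      (by rw [← hM]; exact hEc) hlink (by rw [e3]; exact hμ) hacc
    rwa [e2] at h5

end Pool.Agent.V11163.GI
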